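import Pool.Agent.Q113.Lnk.Degen

/-! A large set of vertices with large degrees and many induced subgraphs in all links. -/

set_option autoImplicit false
set_option linter.unusedVariables false
set_option maxHeartbeats 1000000
open Finset
open scoped Classical
open Pool.Agent.H122R2.N6

namespace Pool.Agent.Q113.Lnk

noncomputable section

theorem core {C : ℝ} (hC : 0 ≤ C) {P : Finset (Finset (Fin 4)) → Prop} {c : ℝ} (hc : 0 ≤ c)
    (hP : ∀ F, P F → ∃ μ β : ℝ, 0 ≤ μ ∧ β ≤ c * (1 + μ) ∧ VIneq F μ β C) :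
    ∀ ε : ℝ, 0 < ε → ∃ δ : ℝ, 0 < δ ∧ ∃ n₀ : ℕ, ∀ n : ℕ, n₀ ≤ n → ∀ H : Finset (Finset (Fin n)),
      (∀ e ∈ H, e.card = 3) → K43Free H → (c + ε) * (n : ℝ) ^ 3 < 6 * (H.card : ℝ) →
      ∃ U : Finset (Fin n), δ * n ≤ U.card ∧
        (H.card : ℝ) * (U.card : ℝ) ^ 3 ≤ eIn H U * (n : ℝ) ^ 3 ∧
        (∀ v ∈ U, (1 - ε) * (3 * (eIn H U : ℝ)) ≤ U.card * dIn H U v) ∧
        ∀ v ∈ U, ∀ F, P F → δ * (U.card : ℝ) ^ 4 < copies H F U v := by
  intro ε hε
  set η : ℝ := min ε 1 with hη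
  have hη0 : 0 < η := lt_min hε one_pos
  have hη1 : η ≤ 1 := min_le_right _ _
  have hηε : η ≤ ε := min_le_left _ _
  set κ : ℝ := η ^ (1 / η) with hκ
  have hκ0 : 0 < κ := Real.rpow_pos_of_pos hη0 _
  set δ : ℝ := min κ (η / (8 * (C + 1))) with hδ
  have hδ0 : 0 < δ := lt_min hκ0 (by positivity)
  obtain ⟨n₀, hn₀⟩ := exists_nat_ge (8 * (2 + 10 * C) / (η * κ) + 1)
  refine ⟨δ, hδ0, n₀, fun n hn H h3 hK hcon => ?_⟩
  have hnR : 8 * (2 + 10 * C) / (η * κ) + 1 ≤ n := hn₀.trans (by exact_mod_cast hn)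
  have hn1 : (0 : ℝ) < n := by
    have : 0 ≤ 8 * (2 + 10 * C) / (η * κ) := by positivity
    linarith
  have hnN : 0 < n := by exact_mod_cast hn1
  obtain ⟨U, hUn, ha, hd⟩ := exists_U H h3 hnN (p := 3 - η) (by linarith) (by linarith)
  have hall : eIn H univ = H.card := by
    unfold eIn
    congr 1
    exact filter_true_of_mem fun e _ => subset_univ e
  rw [hall] at ha
  have hm0 : (0 : ℝ) < U.card := by exact_mod_cast hUn.card_pos
  have hmn : (U.card : ℝ) ≤ n := by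
    have := card_le_univ U
    rw [Fintype.card_fin] at this
    exact_mod_cast this
  set x : ℝ := (U.card : ℝ) with hx
  set y : ℝ := (n : ℝ) with hy
  have he0 : (0 : ℝ) ≤ eIn H U := Nat.cast_nonneg _
  have hpow : ∀ z : ℝ, 0 < z → z ^ (3 - η) = z ^ 3 / z ^ η := by
    intro z hz
    rw [Real.rpow_sub hz]
    norm_cast
  rw [hpow x hm0, hpow y hn1] at ha
  have hxη : 0 < x ^ η := Real.rpow_pos_of_pos hm0 _
  have hyη : 0 < y ^ η := Real.rpow_pos_of_pos hn1 _
  have hq : (x / y) ^ η = x ^ η / y ^ η := Real.div_rpow hm0.le hn1.le η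
  set TU : ℝ := 6 * (eIn H U : ℝ) / x ^ 3 with hTU
  set TH : ℝ := 6 * (H.card : ℝ) / y ^ 3 with hTH
  have hTU0 : 0 ≤ TU := by positivity
  have hTU1 : TU ≤ 1 := by
    rw [hTU, div_le_one (by positivity)]
    exact eIn_le h3 U
  have h1 : TH ≤ TU * (x / y) ^ η := by
    rw [hq, hTH, hTU]
    have e1 : (H.card : ℝ) / (y ^ 3 / y ^ η) = H.card / y ^ 3 * y ^ η := by
      field_simp
    have e2 : (eIn H U : ℝ) / (x ^ 3 / x ^ η) = eIn H U / x ^ 3 * x ^ η := by
      field_simp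
    rw [e1, e2] at ha
    have h2 : (H.card : ℝ) / y ^ 3 ≤ eIn H U / x ^ 3 * x ^ η / y ^ η := by
      rw [le_div_iff₀ hyη]
      exact ha
    calc 6 * (H.card : ℝ) / y ^ 3 = 6 * ((H.card : ℝ) / y ^ 3) := by ring
      _ ≤ 6 * (eIn H U / x ^ 3 * x ^ η / y ^ η) := by linarith
      _ = _ := by ring
  have hTH1 : c + ε < TH := by
    rw [hTH, lt_div_iff₀ (by positivity)]
    exact hcon
  have hr0 : 0 ≤ (x / y) ^ η := Real.rpow_nonneg (by positivity) _
  have hr1 : (x / y) ^ η ≤ 1 := Real.rpow_le_one (by positivity) ((div_le_one hn1).mpr hmn) hη0.le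
  have h2 : TH ≤ TU := h1.trans (mul_le_of_le_one_right hTU0 hr1)
  have h4 : η < (x / y) ^ η := by
    have h5 : TU * (x / y) ^ η ≤ (x / y) ^ η := mul_le_of_le_one_left hr0 hTU1
    linarith
  have h5 : κ ≤ x / y := by
    by_contra hlt
    push Not at hlt
    have h6 : (x / y) ^ η ≤ κ ^ η := Real.rpow_le_rpow (by positivity) hlt.le hη0.le
    have h7 : κ ^ η = η := by
      rw [hκ, ← Real.rpow_mul hη0.le, one_div, inv_mul_cancel₀ hη0.ne', Real.rpow_one]
    linarith
  have h6 : κ * y ≤ x := by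
    rwa [le_div_iff₀ hn1] at h5
  have h10 : (2 + 10 * C) / x ≤ η / 8 := by
    have : 8 * (2 + 10 * C) / η ≤ x := by
      have h11 : 8 * (2 + 10 * C) / (η * κ) ≤ y := by linarith
      have h12 := mul_le_mul_of_nonneg_left h11 hκ0.le
      calc 8 * (2 + 10 * C) / η = κ * (8 * (2 + 10 * C) / (η * κ)) := by field_simp
        _ ≤ κ * y := h12
        _ ≤ x := h6
    rw [div_le_iff₀ hη0] at this
    rw [div_le_iff₀ hm0]
    linarith
  have h2x : 2 / x ≤ η / 8 := by
    have e : 2 / x + C * (10 / x) = (2 + 10 * C) / x := by ring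
    have : 0 ≤ C * (10 / x) := by positivity
    linarith
  refine ⟨U, le_trans (mul_le_mul_of_nonneg_right (min_le_left _ _) hn1.le) h6, ?_, ?_, ?_⟩
  · rw [hTH, hTU, div_le_div_iff₀ (by positivity) (by positivity)] at h2
    linarith
  · intro v hv
    have hd2 := hd v hv
    rw [div_le_iff₀ hm0] at h2x
    have hd0 : (0 : ℝ) ≤ dIn H U v := Nat.cast_nonneg _
    have k1 : 2 * (dIn H U v : ℝ) ≤ η / 8 * x * dIn H U v := mul_le_mul_of_nonneg_right h2x hd0
    have k2 : (3 - η) * (eIn H U : ℝ) ≤ (1 + η / 8) * (x * dIn H U v) := by linarith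
    have k3 : (1 - η) * (3 * (eIn H U : ℝ)) * (1 + η / 8) ≤ (3 - η) * eIn H U := by
      have : (1 - η) * 3 * (1 + η / 8) ≤ 3 - η := by nlinarith
      have := mul_le_mul_of_nonneg_right this he0
      linarith
    have k4 : (1 - η) * (3 * (eIn H U : ℝ)) ≤ x * dIn H U v := by
      have k5 : (1 - η) * (3 * (eIn H U : ℝ)) * (1 + η / 8) ≤ x * dIn H U v * (1 + η / 8) := by linarith
      exact le_of_mul_le_mul_right k5 (by positivity)
    have k6 : (1 - ε) * (3 * (eIn H U : ℝ)) ≤ (1 - η) * (3 * (eIn H U : ℝ)) :=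
      mul_le_mul_of_nonneg_right (by linarith) (by positivity)
    linarith
  intro v hv F hF
  by_contra hcop
  push Not at hcop
  obtain ⟨μ, β, hμ, hβ, hV⟩ := hP F hF
  have hV2 := hV n H h3 hK U hUn v
  have hd2 := hd v hv
  rw [← hTU] at hV2
  have hcop2 : (copies H F U v : ℝ) / x ^ 4 ≤ δ := by
    rw [div_le_iff₀ (by positivity)]
    exact hcop
  -- the degree
  have h7 : TU - η / 3 - 2 / x ≤ 2 * (dIn H U v : ℝ) / x ^ 2 := by
    have h8 : (3 - η) * (eIn H U : ℝ) / (x + 2) ≤ dIn H U v := by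
      rw [div_le_iff₀ (by positivity)]
      linarith
    have h9 : 2 * ((3 - η) * (eIn H U : ℝ) / (x + 2)) / x ^ 2 ≤ 2 * (dIn H U v : ℝ) / x ^ 2 := by
      gcongr
    refine le_trans ?_ h9
    have e1 : 2 * ((3 - η) * (eIn H U : ℝ) / (x + 2)) / x ^ 2 = (1 - η / 3) * TU * (x / (x + 2)) := by
      rw [hTU]
      field_simp
      ring
    have e2 : x / (x + 2) ≥ 1 - 2 / x := by
      rw [ge_iff_le, le_div_iff₀ (by positivity)]
      have : (1 - 2 / x) * (x + 2) = x - 4 / x := by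
        field_simp
        ring
      rw [this]
      have : 0 < 4 / x := by positivity
      linarith
    rw [e1]
    have e3 : 0 ≤ (1 - η / 3) * TU := mul_nonneg (by linarith) hTU0
    have e4 := mul_le_mul_of_nonneg_left e2 e3
    have e5 : (1 - η / 3) * TU ≤ 1 := by
      calc (1 - η / 3) * TU ≤ 1 * 1 := mul_le_mul (by linarith) hTU1 hTU0 zero_le_one
        _ = 1 := one_mul 1
    have e6 : (1 - η / 3) * TU * (2 / x) ≤ 2 / x := mul_le_of_le_one_left (by positivity) e5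
    have e7 : η / 3 * TU ≤ η / 3 := mul_le_of_le_one_right (by linarith) hTU1
    calc TU - η / 3 - 2 / x ≤ TU - η / 3 * TU - (1 - η / 3) * TU * (2 / x) := by linarith
      _ = (1 - η / 3) * TU * (1 - 2 / x) := by ring
      _ ≤ _ := e4
  have h8 : C * ((copies H F U v : ℝ) / x ^ 4 + 10 / x) ≤ C * (δ + 10 / x) :=
    mul_le_mul_of_nonneg_left (by linarith) hC
  have h9 : C * δ ≤ η / 8 := by
    have : δ ≤ η / (8 * (C + 1)) := min_le_right _ _
    calc C * δ ≤ C * (η / (8 * (C + 1))) := mul_le_mul_of_nonneg_left this hC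
      _ = η / 8 * (C / (C + 1)) := by field_simp
      _ ≤ η / 8 * 1 := by
          refine mul_le_mul_of_nonneg_left ?_ (by positivity)
          rw [div_le_one (by linarith)]
          linarith
      _ = η / 8 := mul_one _
  have h11 : (1 + μ) * TU ≤ (1 + μ) * c + (η / 3 + 2 / x + C * (δ + 10 / x)) := by linarith
  have h12 : η / 3 + 2 / x + C * (δ + 10 / x) ≤ η / 3 + η / 8 + η / 8 := by
    have : 2 / x + C * (10 / x) = (2 + 10 * C) / x := by ring
    have e : C * (δ + 10 / x) = C * δ + C * (10 / x) := by ring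
    linarith
  have h13 : (1 + μ) * (TU - c) ≤ η / 3 + η / 8 + η / 8 := by linarith
  have h14 : η < TU - c := by linarith
  have h15 : TU - c ≤ (1 + μ) * (TU - c) := by
    have : 0 ≤ μ * (TU - c) := mul_nonneg hμ (by linarith)
    linarith
  linarith

end

end Pool.Agent.Q113.Lnk
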