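import Pool.Agent.Q113.Lnk.Thy
import Pool.Agent.Q113.Hyb.TriEq

/-! The link of one vertex: weights on a set of vertices and counting of induced subgraphs. -/

set_option autoImplicit false
set_option linter.unusedVariables false
set_option linter.unusedSectionVars false
set_option maxRecDepth 100000
open Finset
open scoped Classical
open Pool.Agent.H122R2.N6
open Pool.Agent.Q113.Cov (T3)
open Pool.Agent.Q113.Hyb (S5 tri_pos tri_neg)

namespace Pool.Agent.Q113.Lnk

noncomputable section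

/-- the adjacency matrix of a graph with four vertices -/
def mat (e01 e02 e12 e03 e13 e23 : ℕ) : Fin 4 → Fin 4 → ℕ :=
  ![![0, e01, e02, e03], ![e01, 0, e12, e13], ![e02, e12, 0, e23], ![e03, e13, e23, 0]]

/-- all graphs in the list `M` are isomorphic to `F` -/
def Good (M : ℕ) (F : Finset (Finset (Fin 4))) : Prop :=
  ∀ e01 e02 e12 e03 e13 e23 : Fin 2, inM M (pat e01 e02 e12 e03 e13 e23) = true →
    ∃ σ : Equiv.Perm (Fin 4), ∀ i j : Fin 4, i ≠ j →
      (mat e01 e02 e12 e03 e13 e23 i j = 1 ↔ ({σ i, σ j} : Finset (Fin 4)) ∈ F)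

/-- The link of `v` in `H` induces a graph isomorphic to `F` on the ordered quadruple `f`. -/
def LinkIso {n : ℕ} (H : Finset (Finset (Fin n))) (F : Finset (Finset (Fin 4))) (v : Fin n)
    (f : Fin 4 → Fin n) : Prop :=
  Function.Injective f ∧ (∀ i, f i ≠ v) ∧ ∃ σ : Equiv.Perm (Fin 4), ∀ i j : Fin 4, i ≠ j →
    (({v, f i, f j} : Finset (Fin n)) ∈ H ↔ ({σ i, σ j} : Finset (Fin 4)) ∈ F)

/-- the number of ordered quadruples in `U` which induce `F` in the link of `v` -/
def copies {n : ℕ} (H : Finset (Finset (Fin n))) (F : Finset (Finset (Fin 4))) (U : Finset (Fin n)) (v : Fin n) : ℕ :=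
  ((univ : Finset (Fin 4 → Fin n)).filter fun f => (∀ i, f i ∈ U) ∧ LinkIso H F v f).card

/-- the number of edges in `U` -/
def eIn {n : ℕ} (H : Finset (Finset (Fin n))) (U : Finset (Fin n)) : ℕ := (H.filter fun e => e ⊆ U).card
/-- the number of edges in `U` containing `v` -/
def dIn {n : ℕ} (H : Finset (Finset (Fin n))) (U : Finset (Fin n)) (v : Fin n) : ℕ :=
  (H.filter fun e => e ⊆ U ∧ v ∈ e).card

theorem tri_bit {n : ℕ} (H : Finset (Finset (Fin n))) (x y z : Fin n) :
    ∃ e : Fin 2, tri H x y z = e ∧ ((e : ℕ) = 1 ↔ ({x, y, z} : Finset (Fin n)) ∈ H) := by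
  by_cases h : ({x, y, z} : Finset (Fin n)) ∈ H
  · refine ⟨1, ?_, ?_⟩
    · rw [tri_pos h]
      rfl
    · simp [h]
  · refine ⟨0, ?_, ?_⟩
    · rw [tri_neg h]
      rfl
    · simp [h]

theorem iso_of {n : ℕ} {H : Finset (Finset (Fin n))} {M : ℕ} {F : Finset (Finset (Fin 4))} (hM : Good M F)
    {a b c x y : Fin n} (hd : Function.Injective ![a, b, c, x]) (hy : ∀ i, ![a, b, c, x] i ≠ y)
    (h : inM M (pat (tri H y a b) (tri H y a c) (tri H y b c) (tri H y a x) (tri H y b x) (tri H y c x)) = true) :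
    LinkIso H F y ![a, b, c, x] := by
  obtain ⟨e01, h01, i01⟩ := tri_bit H y a b
  obtain ⟨e02, h02, i02⟩ := tri_bit H y a c
  obtain ⟨e12, h12, i12⟩ := tri_bit H y b c
  obtain ⟨e03, h03, i03⟩ := tri_bit H y a x
  obtain ⟨e13, h13, i13⟩ := tri_bit H y b x
  obtain ⟨e23, h23, i23⟩ := tri_bit H y c x
  rw [h01, h02, h12, h03, h13, h23] at h
  obtain ⟨σ, hσ⟩ := hM e01 e02 e12 e03 e13 e23 h
  refine ⟨hd, hy, σ, fun i j hij => ?_⟩
  rw [← hσ i j hij]
  have sw : ∀ p q : Fin n, ({y, p, q} : Finset (Fin n)) = {y, q, p} := fun p q => by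
    rw [pair_comm]
  fin_cases i <;> fin_cases j
  · exact absurd rfl hij
  · exact i01.symm
  · exact i02.symm
  · exact i03.symm
  · show ({y, b, a} : Finset (Fin n)) ∈ H ↔ _
    rw [sw]
    exact i01.symm
  · exact absurd rfl hij
  · exact i12.symm
  · exact i13.symm
  · show ({y, c, a} : Finset (Fin n)) ∈ H ↔ _
    rw [sw]
    exact i02.symm
  · show ({y, c, b} : Finset (Fin n)) ∈ H ↔ _
    rw [sw]
    exact i12.symm
  · exact absurd rfl hij
  · exact i23.symm
  · show ({y, x, a} : Finset (Fin n)) ∈ H ↔ _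
    rw [sw]
    exact i03.symm
  · show ({y, x, b} : Finset (Fin n)) ∈ H ↔ _
    rw [sw]
    exact i13.symm
  · show ({y, x, c} : Finset (Fin n)) ∈ H ↔ _
    rw [sw]
    exact i23.symm
  · exact absurd rfl hij

/-- the weight one on the set `U` -/
def un {n : ℕ} (U : Finset (Fin n)) (x : Fin n) : ℝ := if x ∈ U then 1 / (U.card : ℝ) else 0

theorem un_mem {n : ℕ} {U : Finset (Fin n)} (hU : U.Nonempty) : un U ∈ stdSimplex ℝ (Fin n) := by
  have h0 : (0 : ℝ) < U.card := by exact_mod_cast hU.card_pos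
  refine ⟨fun x => ?_, ?_⟩
  · unfold un
    split_ifs
    · positivity
    · exact le_rfl
  · unfold un
    rw [sum_ite_mem, univ_inter, sum_const, nsmul_eq_mul]
    field_simp

theorem sum_un {n : ℕ} (U : Finset (Fin n)) (g : Fin n → ℝ) :
    ∑ x, un U x * g x = (1 / (U.card : ℝ)) * ∑ x ∈ U, g x := by
  unfold un
  simp only [ite_mul, zero_mul]
  rw [sum_ite_mem, univ_inter, mul_sum]

/-- the indicator of a forbidden pattern in the link of `v` -/
def Bp {n : ℕ} (H : Finset (Finset (Fin n))) (M : ℕ) (v a b c x : Fin n) : ℝ :=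
  if inM M (pat (tri H v a b) (tri H v a c) (tri H v b c) (tri H v a x) (tri H v b x) (tri H v c x)) = true then 1 else 0

theorem S5_un {n : ℕ} (H : Finset (Finset (Fin n))) (M : ℕ) (v : Fin n) {U : Finset (Fin n)} (hU : U.Nonempty) :
    S5 (un U) (Bd (fun x y => tri H v x y) M)
      = (1 / (U.card : ℝ)) ^ 4 * ∑ a ∈ U, ∑ b ∈ U, ∑ c ∈ U, ∑ x ∈ U, Bp H M v a b c x := by
  have hw := un_mem hU
  have e1 : S5 (un U) (Bd (fun x y => tri H v x y) M)
      = ∑ a, un U a * ∑ b, un U b * ∑ c, un U c * ∑ x, un U x * Bp H M v a b c x := by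
    unfold S5
    simp only [mul_sum]
    refine sum_congr rfl fun a _ => sum_congr rfl fun b _ => sum_congr rfl fun c _ => sum_congr rfl fun x _ => ?_
    have : ∀ y, un U a * un U b * un U c * un U x * un U y * Bd (fun x y => tri H v x y) M a b c x y
        = un U y * (un U a * (un U b * (un U c * (un U x * Bp H M v a b c x)))) := by
      intro y
      unfold Bd Bp
      ring
    rw [sum_congr rfl fun y _ => this y, ← sum_mul, hw.2, one_mul]
  rw [e1]
  simp only [sum_un]
  simp only [mul_sum]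
  refine sum_congr rfl fun a _ => sum_congr rfl fun b _ => sum_congr rfl fun c _ => sum_congr rfl fun x _ => ?_
  ring

/-- the indicator of an ordered quadruple -/
def ind4 {n : ℕ} (H : Finset (Finset (Fin n))) (F : Finset (Finset (Fin 4))) (v a b c x : Fin n) : ℝ :=
  if LinkIso H F v ![a, b, c, x] then 1 else 0

theorem sum_ind4 {n : ℕ} (H : Finset (Finset (Fin n))) (F : Finset (Finset (Fin 4))) (U : Finset (Fin n)) (v : Fin n) :
    ∑ a ∈ U, ∑ b ∈ U, ∑ c ∈ U, ∑ x ∈ U, ind4 H F v a b c x ≤ (copies H F U v : ℝ) := by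
  have e : ∑ a ∈ U, ∑ b ∈ U, ∑ c ∈ U, ∑ x ∈ U, ind4 H F v a b c x
      = (((U ×ˢ U ×ˢ U ×ˢ U).filter fun t : Fin n × Fin n × Fin n × Fin n =>
        LinkIso H F v ![t.1, t.2.1, t.2.2.1, t.2.2.2]).card : ℝ) := by
    rw [card_filter]
    push_cast
    simp only [sum_product]
    rfl
  rw [e]
  unfold copies
  norm_cast
  refine card_le_card_of_injOn (fun t => ![t.1, t.2.1, t.2.2.1, t.2.2.2]) ?_ ?_
  · intro t ht
    have ht' := mem_filter.mp (mem_coe.mp ht)
    have hm := ht'.1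
    simp only [mem_product] at hm
    refine mem_coe.mpr (mem_filter.mpr ⟨mem_univ _, ?_, ht'.2⟩)
    intro i
    fin_cases i
    · exact hm.1
    · exact hm.2.1
    · exact hm.2.2.1
    · exact hm.2.2.2
  · rintro ⟨a, b, c, x⟩ _ ⟨a', b', c', x'⟩ _ h
    have q0 := congrFun h 0
    have q1 := congrFun h 1
    have q2 := congrFun h 2
    have q3 := congrFun h 3
    simp at q0 q1 q2 q3
    subst q0 q1 q2 q3
    rfl

theorem card_bad {n : ℕ} {H : Finset (Finset (Fin n))} {M : ℕ} {F : Finset (Finset (Fin 4))} (hM : Good M F)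
    (U : Finset (Fin n)) (v : Fin n) :
    ∑ a ∈ U, ∑ b ∈ U, ∑ c ∈ U, ∑ x ∈ U, Bp H M v a b c x ≤ (copies H F U v : ℝ) + 10 * (U.card : ℝ) ^ 3 := by
  have hp : ∀ a b c x : Fin n, Bp H M v a b c x ≤ ind4 H F v a b c x
      + ((if a = b then (1 : ℝ) else 0) + (if a = c then (1 : ℝ) else 0) + (if a = x then (1 : ℝ) else 0)
      + (if b = c then (1 : ℝ) else 0) + (if b = x then (1 : ℝ) else 0) + (if c = x then (1 : ℝ) else 0)
      + (if v = a then (1 : ℝ) else 0) + (if v = b then (1 : ℝ) else 0) + (if v = c then (1 : ℝ) else 0)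
      + (if v = x then (1 : ℝ) else 0)) := by
    intro a b c x
    have n0 : ∀ (p : Prop) [Decidable p], (0 : ℝ) ≤ if p then 1 else 0 := fun p _ => by split_ifs <;> norm_num
    have i0 : 0 ≤ ind4 H F v a b c x := n0 _
    have hL : Bp H M v a b c x ≤ 1 := by
      unfold Bp
      split_ifs <;> norm_num
    have m1 := n0 (a = b)
    have m2 := n0 (a = c)
    have m3 := n0 (a = x)
    have m5 := n0 (b = c)
    have m6 := n0 (b = x)
    have m8 := n0 (c = x)
    have m4 := n0 (v = a)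
    have m7 := n0 (v = b)
    have m9 := n0 (v = c)
    have m10 := n0 (v = x)
    by_cases h1 : a = b
    · rw [if_pos h1] at m1 ⊢; linarith
    by_cases h2 : a = c
    · rw [if_pos h2] at m2 ⊢; linarith
    by_cases h3 : a = x
    · rw [if_pos h3] at m3 ⊢; linarith
    by_cases h5 : b = c
    · rw [if_pos h5] at m5 ⊢; linarith
    by_cases h6 : b = x
    · rw [if_pos h6] at m6 ⊢; linarith
    by_cases h8 : c = x
    · rw [if_pos h8] at m8 ⊢; linarith
    by_cases h4 : v = a
    · rw [if_pos h4] at m4 ⊢; linarith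
    by_cases h7 : v = b
    · rw [if_pos h7] at m7 ⊢; linarith
    by_cases h9 : v = c
    · rw [if_pos h9] at m9 ⊢; linarith
    by_cases h10 : v = x
    · rw [if_pos h10] at m10 ⊢; linarith
    have hle : Bp H M v a b c x ≤ ind4 H F v a b c x := by
      unfold Bp
      by_cases hm : inM M (pat (tri H v a b) (tri H v a c) (tri H v b c) (tri H v a x) (tri H v b x) (tri H v c x)) = true
      · rw [if_pos hm]
        unfold ind4
        have d1 : Function.Injective ![a, b, c, x] := by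
          intro i j hij
          fin_cases i <;> fin_cases j <;> simp_all
        have d2 : ∀ i, ![a, b, c, x] i ≠ v := by
          intro i
          fin_cases i
          · exact fun h => h4 h.symm
          · exact fun h => h7 h.symm
          · exact fun h => h9 h.symm
          · exact fun h => h10 h.symm
        rw [if_pos (iso_of hM d1 d2 hm)]
      · rw [if_neg hm]
        exact i0
    linarith
  refine (sum_le_sum fun a _ => sum_le_sum fun b _ => sum_le_sum fun c _ => sum_le_sum fun x _ => hp a b c x).trans ?_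
  simp only [sum_add_distrib]
  refine add_le_add (sum_ind4 H F U v) ?_
  have hcard : (0 : ℝ) ≤ U.card := Nat.cast_nonneg _
  have one : ∀ t : Fin n, ∑ y ∈ U, (if t = y then (1 : ℝ) else 0) ≤ 1 := by
    intro t
    rw [sum_ite_eq]
    split_ifs <;> norm_num
  have two : ∀ g : Fin n → ℝ, (∀ a, g a ≤ 1) → ∑ a ∈ U, g a ≤ U.card := by
    intro g hg
    calc ∑ a ∈ U, g a ≤ ∑ _a ∈ U, (1 : ℝ) := sum_le_sum fun a _ => hg a
      _ = U.card := by rw [sum_const, nsmul_eq_mul, mul_one]
  simp only [sum_const, nsmul_eq_mul, ← mul_sum]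
  have k1 : ∑ a ∈ U, ∑ b ∈ U, (if a = b then (1 : ℝ) else 0) ≤ U.card := two _ one
  have k2 := one v
  have p1 : ∀ r : ℝ, r ≤ U.card → (U.card : ℝ) * ((U.card : ℝ) * r) ≤ (U.card : ℝ) ^ 3 := by
    intro r hr
    calc (U.card : ℝ) * ((U.card : ℝ) * r) ≤ (U.card : ℝ) * ((U.card : ℝ) * U.card) :=
          mul_le_mul_of_nonneg_left (mul_le_mul_of_nonneg_left hr hcard) hcard
      _ = (U.card : ℝ) ^ 3 := by ring
  have p2 : ∀ r : ℝ, r ≤ 1 → (U.card : ℝ) * ((U.card : ℝ) * ((U.card : ℝ) * r)) ≤ (U.card : ℝ) ^ 3 := by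
    intro r hr
    calc (U.card : ℝ) * ((U.card : ℝ) * ((U.card : ℝ) * r)) ≤ (U.card : ℝ) * ((U.card : ℝ) * ((U.card : ℝ) * 1)) :=
          mul_le_mul_of_nonneg_left (mul_le_mul_of_nonneg_left (mul_le_mul_of_nonneg_left hr hcard) hcard) hcard
      _ = (U.card : ℝ) ^ 3 := by ring
  have := p1 _ k1
  have := p2 _ k2
  linarith

theorem T3_un {n : ℕ} {H : Finset (Finset (Fin n))} (h3 : ∀ e ∈ H, e.card = 3) {U : Finset (Fin n)} (hU : U.Nonempty) :
    6 * (eIn H U : ℝ) / (U.card : ℝ) ^ 3 ≤ T3 (tri H) (un U) (un U) (un U) := by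
  have hw := un_mem hU
  refine le_trans ?_ (six_weight_le h3 hw.1)
  have h0 : (0 : ℝ) < U.card := by exact_mod_cast hU.card_pos
  have e1 : ∑ e ∈ H.filter (fun e => e ⊆ U), ∏ v ∈ e, un U v = eIn H U * (1 / (U.card : ℝ)) ^ 3 := by
    have : ∀ e ∈ H.filter (fun e => e ⊆ U), ∏ v ∈ e, un U v = (1 / (U.card : ℝ)) ^ 3 := by
      intro e he
      obtain ⟨heH, heU⟩ := mem_filter.mp he
      rw [prod_congr rfl fun v hv => show un U v = 1 / (U.card : ℝ) from if_pos (heU hv), prod_const, h3 e heH]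
    rw [sum_congr rfl this, sum_const, nsmul_eq_mul]
    rfl
  have e2 : ∑ e ∈ H.filter (fun e => e ⊆ U), ∏ v ∈ e, un U v ≤ ∑ e ∈ H, ∏ v ∈ e, un U v :=
    sum_le_sum_of_subset_of_nonneg (filter_subset _ _) fun e _ _ => prod_nonneg fun v _ => hw.1 v
  rw [e1] at e2
  calc 6 * (eIn H U : ℝ) / (U.card : ℝ) ^ 3 = 6 * (eIn H U * (1 / (U.card : ℝ)) ^ 3) := by
        field_simp
    _ ≤ _ := by linarith

theorem dL_un {n : ℕ} {H : Finset (Finset (Fin n))} (h3 : ∀ e ∈ H, e.card = 3) {U : Finset (Fin n)} (hU : U.Nonempty)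
    (v : Fin n) : 2 * (dIn H U v : ℝ) / (U.card : ℝ) ^ 2 ≤ dL (fun x y => tri H v x y) (un U) := by
  have h0 : (0 : ℝ) < U.card := by exact_mod_cast hU.card_pos
  have e1 : dL (fun x y => tri H v x y) (un U) = (1 / (U.card : ℝ)) ^ 2 * ∑ x ∈ U, ∑ y ∈ U, (tri H v x y : ℝ) := by
    unfold dL
    have : ∑ x, ∑ y, un U x * un U y * (tri H v x y : ℝ) = ∑ x, un U x * ∑ y, un U y * (tri H v x y : ℝ) := by
      simp only [mul_sum]
      refine sum_congr rfl fun x _ => sum_congr rfl fun y _ => ?_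
      ring
    rw [this]
    simp only [sum_un]
    simp only [mul_sum]
    refine sum_congr rfl fun x _ => sum_congr rfl fun y _ => ?_
    ring
  set P := (U ×ˢ U).filter fun t : Fin n × Fin n => ({v, t.1, t.2} : Finset (Fin n)) ∈ H with hP
  have e2 : ∑ x ∈ U, ∑ y ∈ U, (tri H v x y : ℝ) = P.card := by
    rw [hP, card_filter]
    push_cast
    rw [sum_product]
    refine sum_congr rfl fun x _ => sum_congr rfl fun y _ => ?_
    by_cases h : ({v, x, y} : Finset (Fin n)) ∈ H
    · rw [tri_pos h, if_pos h]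
      norm_num
    · rw [tri_neg h, if_neg h]
      norm_num
  have e3 : 2 * dIn H U v ≤ P.card := by
    have hmaps : ∀ t ∈ P.filter (fun t => ({v, t.1, t.2} : Finset (Fin n)) ⊆ U), ({v, t.1, t.2} : Finset (Fin n)) ∈
        H.filter (fun e => e ⊆ U ∧ v ∈ e) := by
      intro t ht
      obtain ⟨h1, h2⟩ := mem_filter.mp ht
      rw [hP, mem_filter] at h1
      exact mem_filter.mpr ⟨h1.2, h2, by simp⟩
    have h4 := card_eq_sum_card_fiberwise (f := fun t : Fin n × Fin n => ({v, t.1, t.2} : Finset (Fin n)))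
      (s := P.filter (fun t => ({v, t.1, t.2} : Finset (Fin n)) ⊆ U)) (t := H.filter (fun e => e ⊆ U ∧ v ∈ e))
      (fun t ht => hmaps t ht)
    have h5 : ∀ e ∈ H.filter (fun e => e ⊆ U ∧ v ∈ e), 2 ≤ ((P.filter (fun t => ({v, t.1, t.2} : Finset (Fin n)) ⊆ U)).filter
        fun t => ({v, t.1, t.2} : Finset (Fin n)) = e).card := by
      intro e he
      obtain ⟨heH, heU, hve⟩ := mem_filter.mp he
      have hc : (e.erase v).card = 2 := by rw [card_erase_of_mem hve, h3 e heH]
      obtain ⟨a, b, hab, hE⟩ := card_eq_two.mp hc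
      have hee : e = {v, a, b} := by rw [← insert_erase hve, hE]
      have ha : a ∈ U := heU (by rw [hee]; simp)
      have hb : b ∈ U := heU (by rw [hee]; simp)
      have sub : ({(a, b), (b, a)} : Finset (Fin n × Fin n)) ⊆ (P.filter (fun t => ({v, t.1, t.2} : Finset (Fin n)) ⊆ U)).filter
          fun t => ({v, t.1, t.2} : Finset (Fin n)) = e := by
        intro t ht
        rw [mem_insert, mem_singleton] at ht
        rcases ht with rfl | rfl
        · rw [mem_filter, mem_filter, hP, mem_filter, mem_product]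
          refine ⟨⟨⟨⟨ha, hb⟩, ?_⟩, ?_⟩, ?_⟩
          · show ({v, a, b} : Finset (Fin n)) ∈ H
            rw [← hee]; exact heH
          · show ({v, a, b} : Finset (Fin n)) ⊆ U
            rw [← hee]; exact heU
          · exact hee.symm
        · have hba : ({v, b, a} : Finset (Fin n)) = e := by rw [pair_comm b a]; exact hee.symm
          rw [mem_filter, mem_filter, hP, mem_filter, mem_product]
          refine ⟨⟨⟨⟨hb, ha⟩, ?_⟩, ?_⟩, ?_⟩
          · show ({v, b, a} : Finset (Fin n)) ∈ H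
            rw [hba]; exact heH
          · show ({v, b, a} : Finset (Fin n)) ⊆ U
            rw [hba]; exact heU
          · exact hba
      refine le_trans (le_of_eq ?_) (card_le_card sub)
      rw [card_pair]
      intro h
      exact hab (congrArg Prod.fst h)
    have h6 : 2 * dIn H U v ≤ (P.filter (fun t => ({v, t.1, t.2} : Finset (Fin n)) ⊆ U)).card := by
      rw [h4]
      calc 2 * dIn H U v = ∑ _e ∈ H.filter (fun e => e ⊆ U ∧ v ∈ e), 2 := by
            rw [sum_const, smul_eq_mul, mul_comm]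
            rfl
        _ ≤ _ := sum_le_sum h5
    exact h6.trans (card_le_card (filter_subset _ _))
  rw [e1, e2]
  have e4 : 2 * (dIn H U v : ℝ) ≤ P.card := by exact_mod_cast e3
  calc 2 * (dIn H U v : ℝ) / (U.card : ℝ) ^ 2 = (1 / (U.card : ℝ)) ^ 2 * (2 * (dIn H U v : ℝ)) := by
        field_simp
    _ ≤ _ := mul_le_mul_of_nonneg_left e4 (by positivity)

theorem link_gr {n : ℕ} {H : Finset (Finset (Fin n))} (h3 : ∀ e ∈ H, e.card = 3) (hK : K43Free H) (v : Fin n) :
    Gr (tri H) (fun x y => tri H v x y) where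
  b x y := lt2 (tri_sy H) v x y
  s x y := (tri_sy H).h132 v x y
  t x y z := by
    have := ne4 (tri_noK4 h3 hK) v x y z
    intro h
    apply this
    omega

/-- the inequality for a vertex in a set of vertices -/
theorem vertex_le {n : ℕ} {H : Finset (Finset (Fin n))} (h3 : ∀ e ∈ H, e.card = 3) (hK : K43Free H)
    {F : Finset (Finset (Fin 4))} {t1 : ℕ} {t2 : ℕ → ℕ → ℕ → ℕ → ℕ} {t3 K M A B o1 o2 o3 : ℕ} (hM : Good M F)
    (h1 : sym1 t1 = true) (h2 : sym2 t2 = true) (h3' : sym3 t3 = true) (hM' : symM M = true)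
    (h4 : all1 t1 A B o1 = true) (hg2 : Gall t2 o2) (hg3 : Gm t3 o3) (hA : allS t1 t2 t3 K M = true)
    {U : Finset (Fin n)} (hU : U.Nonempty) (v : Fin n) :
    (K : ℝ) + 120 * (A * (6 * (eIn H U : ℝ) / (U.card : ℝ) ^ 3) + 3 * B * (2 * (dIn H U v : ℝ) / (U.card : ℝ) ^ 2))
      ≤ 10 * o1 + 10 * o2 + 15 * o3 + K * 5 * ((copies H F U v : ℝ) / (U.card : ℝ) ^ 4 + 10 / U.card) := by
  have hw := un_mem hU
  have h0 : (0 : ℝ) < U.card := by exact_mod_cast hU.card_pos
  have hl := lnk (tri_sy H) (tri_noK4 h3 hK) (link_gr h3 hK v) hw h1 h2 h3' hM' h4 hg2 hg3 hA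
  have i1 := T3_un h3 hU
  have i2 := dL_un h3 hU v
  have i3 : S5 (un U) (Bd (fun x y => tri H v x y) M) ≤ (copies H F U v : ℝ) / (U.card : ℝ) ^ 4 + 10 / U.card := by
    rw [S5_un H M v hU]
    have := mul_le_mul_of_nonneg_left (card_bad hM (H := H) U v) (by positivity : (0 : ℝ) ≤ (1 / (U.card : ℝ)) ^ 4)
    refine this.trans (le_of_eq ?_)
    field_simp
  have j1 : (A : ℝ) * (6 * (eIn H U : ℝ) / (U.card : ℝ) ^ 3) ≤ A * T3 (tri H) (un U) (un U) (un U) :=
    mul_le_mul_of_nonneg_left i1 (Nat.cast_nonneg _)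
  have j2 : 3 * (B : ℝ) * (2 * (dIn H U v : ℝ) / (U.card : ℝ) ^ 2) ≤ 3 * B * dL (fun x y => tri H v x y) (un U) :=
    mul_le_mul_of_nonneg_left i2 (by positivity)
  have j3 : (K : ℝ) * (5 * S5 (un U) (Bd (fun x y => tri H v x y) M))
      ≤ K * 5 * ((copies H F U v : ℝ) / (U.card : ℝ) ^ 4 + 10 / U.card) := by
    rw [← mul_assoc]
    exact mul_le_mul_of_nonneg_left i3 (by positivity)
  linarith

end

end Pool.Agent.Q113.Lnk
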