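import Pool.Agent.Q113.Lnk.Base

/-! A 3-graph with a graph on the same vertices: tables for the structures of order five. -/

set_option autoImplicit false
set_option linter.unusedVariables false
open Finset

namespace Pool.Agent.Q113.Lnk

noncomputable section

/-- entry `i` of a table of numbers with 40 bits -/
def dg (T i : ℕ) : ℕ := Nat.mod (Nat.shiftRight T (Nat.mul 40 i)) 1099511627776
/-- row `i` of a table with rows of 64 entries -/
def row (T i : ℕ) : ℕ := Nat.mod (Nat.shiftRight T (Nat.mul 2560 i)) (Nat.pow 2 2560)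
/-- the code of a triple -/
def ix4 (e p q r : ℕ) : ℕ := Nat.add e (Nat.mul 2 (Nat.add p (Nat.mul 2 (Nat.add q (Nat.mul 2 r)))))
/-- the code of a further vertex -/
def ix6 (a b c d e f : ℕ) : ℕ :=
  Nat.add a (Nat.mul 2 (Nat.add b (Nat.mul 2 (Nat.add c (Nat.mul 2 (Nat.add d (Nat.mul 2 (Nat.add e (Nat.mul 2 f)))))))))

/-- the sum of all table entries of a structure of order five -/
def tot (t1 : ℕ) (t2 : ℕ → ℕ → ℕ → ℕ → ℕ) (t3 l01 l02 l12 l03 l13 l23 l04 l14 l24 l34 e012 e013 e023 e123 e014 e024 e124 e034 e134 e234 : ℕ) : ℕ :=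
  Nat.add (dg t1 (ix4 e234 l23 l24 l34)) (Nat.add (dg t1 (ix4 e134 l13 l14 l34)) (Nat.add (dg t1 (ix4 e124 l12 l14 l24)) (Nat.add (dg t1 (ix4 e123 l12 l13 l23)) (Nat.add (dg t1 (ix4 e034 l03 l04 l34)) (Nat.add (dg t1 (ix4 e024 l02 l04 l24)) (Nat.add (dg t1 (ix4 e023 l02 l03 l23)) (Nat.add (dg t1 (ix4 e014 l01 l04 l14)) (Nat.add (dg t1 (ix4 e013 l01 l03 l13)) (Nat.add (dg t1 (ix4 e012 l01 l02 l12)) (Nat.add (dg (row (t2 e234 l23 l24 l34) (ix6 l02 l03 l04 e023 e024 e034)) (ix6 l12 l13 l14 e123 e124 e134)) (Nat.add (dg (row (t2 e134 l13 l14 l34) (ix6 l01 l03 l04 e013 e014 e034)) (ix6 l12 l23 l24 e123 e124 e234)) (Nat.add (dg (row (t2 e124 l12 l14 l24) (ix6 l01 l02 l04 e012 e014 e024)) (ix6 l13 l23 l34 e123 e134 e234)) (Nat.add (dg (row (t2 e123 l12 l13 l23) (ix6 l01 l02 l03 e012 e013 e023)) (ix6 l14 l24 l34 e124 e134 e234)) (Nat.add (dg (row (t2 e034 l03 l04 l34) (ix6 l01 l13 l14 e013 e014 e134)) (ix6 l02 l23 l24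 e023 e024 e234)) (Nat.add (dg (row (t2 e024 l02 l04 l24) (ix6 l01 l12 l14 e012 e014 e124)) (ix6 l03 l23 l34 e023 e034 e234)) (Nat.add (dg (row (t2 e023 l02 l03 l23) (ix6 l01 l12 l13 e012 e013 e123)) (ix6 l04 l24 l34 e024 e034 e234)) (Nat.add (dg (row (t2 e014 l01 l04 l14) (ix6 l02 l12 l24 e012 e024 e124)) (ix6 l03 l13 l34 e013 e034 e134)) (Nat.add (dg (row (t2 e013 l01 l03 l13) (ix6 l02 l12 l23 e012 e023 e123)) (ix6 l04 l14 l34 e014 e034 e134)) (Nat.add (dg (row (t2 e012 l01 l02 l12) (ix6 l03 l13 l23 e013 e023 e123)) (ix6 l04 l14 l24 e014 e024 e124)) (Nat.add (dg (row t3 (ix4 e012 l01 l02 l12)) (ix4 e034 l03 l04 l34)) (Nat.add (dg (row t3 (ix4 e013 l01 l03 l13)) (ix4 e024 l02 l04 l24)) (Nat.add (dg (row t3 (ix4 e014 l01 l04 l14)) (ix4 e023 l02 l03 l23)) (Nat.add (dg (row t3 (ix4 e012 l01 l12 l02)) (ix4 e134 l13 l14 l34)) (Nat.add (dg (row t3 (ix4 e013 l01 l13 l03)) (ix4 e124 l12 l14 l24)) (Nat.add (dg (row t3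 (ix4 e014 l01 l14 l04)) (ix4 e123 l12 l13 l23)) (Nat.add (dg (row t3 (ix4 e012 l02 l12 l01)) (ix4 e234 l23 l24 l34)) (Nat.add (dg (row t3 (ix4 e023 l02 l23 l03)) (ix4 e124 l12 l24 l14)) (Nat.add (dg (row t3 (ix4 e024 l02 l24 l04)) (ix4 e123 l12 l23 l13)) (Nat.add (dg (row t3 (ix4 e013 l03 l13 l01)) (ix4 e234 l23 l34 l24)) (Nat.add (dg (row t3 (ix4 e023 l03 l23 l02)) (ix4 e134 l13 l34 l14)) (Nat.add (dg (row t3 (ix4 e034 l03 l34 l04)) (ix4 e123 l13 l23 l12)) (Nat.add (dg (row t3 (ix4 e014 l04 l14 l01)) (ix4 e234 l24 l34 l23)) (Nat.add (dg (row t3 (ix4 e024 l04 l24 l02)) (ix4 e134 l14 l34 l13)) (dg (row t3 (ix4 e034 l04 l34 l03)) (ix4 e124 l14 l24 l12)))))))))))))))))))))))))))))))))))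

/-- the exchange of two vertices gives a smaller code -/
def lw (a b c a' b' c' : ℕ) : Bool :=
  Nat.blt (Nat.add (Nat.mul 2 (Nat.add (Nat.mul 2 a') b')) c') (Nat.add (Nat.mul 2 (Nat.add (Nat.mul 2 a) b)) c)
/-- the exchange of two vertices does not change the graph -/
def fx (a b c a' b' c' : ℕ) : Bool :=
  Nat.beq (Nat.add (Nat.mul 2 (Nat.add (Nat.mul 2 a') b')) c') (Nat.add (Nat.mul 2 (Nat.add (Nat.mul 2 a) b)) c)

/-- some exchange of two vertices gives a smaller code of the graph -/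
def skL (l01 l02 l12 l03 l13 l23 l04 l14 l24 l34 : ℕ) : Bool :=
  lw l02 l03 l04 l12 l13 l14 || lw l01 l13 l14 l02 l23 l24 || lw l02 l12 l24 l03 l13 l34 || lw l03 l13 l23 l04 l14 l24

/-- some exchange of two vertices fixes the graph and gives a smaller code of the 3-graph -/
def skE (l01 l02 l12 l03 l13 l23 l04 l14 l24 l34 e012 e013 e023 e123 e014 e024 e124 e034 e134 e234 : ℕ) : Bool :=
  (fx l02 l03 l04 l12 l13 l14 && lw e023 e024 e034 e123 e124 e134)
    || (fx l01 l13 l14 l02 l23 l24 && lw e013 e014 e134 e023 e024 e234)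
    || (fx l02 l12 l24 l03 l13 l34 && lw e012 e024 e124 e013 e034 e134)
    || (fx l03 l13 l23 l04 l14 l24 && lw e013 e023 e123 e014 e024 e124)

/-- the code of a structure -/
def phi (l01 l02 l12 l03 l13 l23 l04 l14 l24 l34 e012 e013 e023 e123 e014 e024 e124 e034 e134 e234 : ℕ) : ℕ :=
  1024 * (512 * l01 + 256 * l02 + 128 * l03 + 64 * l04 + 32 * l12 + 16 * l13 + 8 * l14 + 4 * l23 + 2 * l24 + 1 * l34) + (512 * e012 + 256 * e013 + 128 * e014 + 64 * e023 + 32 * e024 + 16 * e034 + 8 * e123 + 4 * e124 + 2 * e134 + 1 * e234)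

/-- one of the five subsets with four elements has a forbidden pattern -/
def bd (M l01 l02 l12 l03 l13 l23 l04 l14 l24 l34 : ℕ) : Bool :=
  inM M (pat l01 l02 l12 l03 l13 l23) || (inM M (pat l01 l02 l12 l04 l14 l24) || (inM M (pat l01 l03 l13 l04 l14 l34) || (inM M (pat l02 l03 l23 l04 l24 l34) || inM M (pat l12 l13 l23 l14 l24 l34))))

/-- the check of the structures with given pairs -/
def chk (t1 : ℕ) (t2 : ℕ → ℕ → ℕ → ℕ → ℕ) (t3 K M l01 l02 l12 l03 l13 l23 l04 l14 l24 l34 : ℕ) : Bool :=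
  bd M l01 l02 l12 l03 l13 l23 l04 l14 l24 l34 || (skL l01 l02 l12 l03 l13 l23 l04 l14 l24 l34 ||
  (A2 fun e012 => k4 e012 l01 l02 l12 ||
  (A2 fun e013 => k4 e013 l01 l03 l13 ||
  (A2 fun e023 => k4 e023 l02 l03 l23 ||
  (A2 fun e123 => k4 e123 l12 l13 l23 || k4 e012 e013 e023 e123 ||
  (A2 fun e014 => k4 e014 l01 l04 l14 ||
  (A2 fun e024 => k4 e024 l02 l04 l24 ||
  (A2 fun e124 => k4 e124 l12 l14 l24 || k4 e012 e014 e024 e124 ||
  (A2 fun e034 => k4 e034 l03 l04 l34 ||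
  (A2 fun e134 => k4 e134 l13 l14 l34 || k4 e013 e014 e034 e134 ||
  (A2 fun e234 => k4 e234 l23 l24 l34 || k4 e023 e024 e034 e234 || k4 e123 e124 e134 e234 ||
  ((skE l01 l02 l12 l03 l13 l23 l04 l14 l24 l34 e012 e013 e023 e123 e014 e024 e124 e034 e134 e234 || Nat.ble K (tot t1 t2 t3 l01 l02 l12 l03 l13 l23 l04 l14 l24 l34 e012 e013 e023 e123 e014 e024 e124 e034 e134 e234))))))))))))))

theorem chk_true {t1 : ℕ} {t2 : ℕ → ℕ → ℕ → ℕ → ℕ} {t3 K M l01 l02 l12 l03 l13 l23 l04 l14 l24 l34 e012 e013 e023 e123 e014 e024 e124 e034 e134 e234 : ℕ}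
    (h : chk t1 t2 t3 K M l01 l02 l12 l03 l13 l23 l04 l14 l24 l34 = true) (he012 : e012 < 2) (he013 : e013 < 2) (he023 : e023 < 2) (he123 : e123 < 2) (he014 : e014 < 2) (he024 : e024 < 2) (he124 : e124 < 2) (he034 : e034 < 2) (he134 : e134 < 2) (he234 : e234 < 2)
    (p0 : bd M l01 l02 l12 l03 l13 l23 l04 l14 l24 l34 = false)
    (hL : skL l01 l02 l12 l03 l13 l23 l04 l14 l24 l34 = false) (hKy : skE l01 l02 l12 l03 l13 l23 l04 l14 l24 l34 e012 e013 e023 e123 e014 e024 e124 e034 e134 e234 = false)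
    (ne012 : (k4 e012 l01 l02 l12) = false)
    (ne013 : (k4 e013 l01 l03 l13) = false)
    (ne023 : (k4 e023 l02 l03 l23) = false)
    (ne123 : (k4 e123 l12 l13 l23) = false)
    (ne014 : (k4 e014 l01 l04 l14) = false)
    (ne024 : (k4 e024 l02 l04 l24) = false)
    (ne124 : (k4 e124 l12 l14 l24) = false)
    (ne034 : (k4 e034 l03 l04 l34) = false)
    (ne134 : (k4 e134 l13 l14 l34) = false)
    (ne234 : (k4 e234 l23 l24 l34) = false)
    (m0123 : (k4 e012 e013 e023 e123) = false)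
    (m0124 : (k4 e012 e014 e024 e124) = false)
    (m0134 : (k4 e013 e014 e034 e134) = false)
    (m0234 : (k4 e023 e024 e034 e234) = false)
    (m1234 : (k4 e123 e124 e134 e234) = false)
    : K ≤ tot t1 t2 t3 l01 l02 l12 l03 l13 l23 l04 l14 l24 l34 e012 e013 e023 e123 e014 e024 e124 e034 e134 e234 := by
  unfold chk at h
  rw [p0, hL] at h
  simp only [Bool.false_or] at h
  replace h := A2_true h he012
  rw [ne012] at h
  simp only [Bool.false_or] at h
  replace h := A2_true h he013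
  rw [ne013] at h
  simp only [Bool.false_or] at h
  replace h := A2_true h he023
  rw [ne023] at h
  simp only [Bool.false_or] at h
  replace h := A2_true h he123
  rw [ne123, m0123] at h
  simp only [Bool.false_or] at h
  replace h := A2_true h he014
  rw [ne014] at h
  simp only [Bool.false_or] at h
  replace h := A2_true h he024
  rw [ne024] at h
  simp only [Bool.false_or] at h
  replace h := A2_true h he124
  rw [ne124, m0124] at h
  simp only [Bool.false_or] at h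
  replace h := A2_true h he034
  rw [ne034] at h
  simp only [Bool.false_or] at h
  replace h := A2_true h he134
  rw [ne134, m0134] at h
  simp only [Bool.false_or] at h
  replace h := A2_true h he234
  rw [ne234, m0234, m1234] at h
  simp only [Bool.false_or] at h
  rw [hKy, Bool.false_or] at h
  exact Nat.le_of_ble_eq_true h

/-- the whole check -/
def allS (t1 : ℕ) (t2 : ℕ → ℕ → ℕ → ℕ → ℕ) (t3 K M : ℕ) : Bool :=
  A2 fun l01 => A2 fun l02 => A2 fun l12 => A2 fun l03 => A2 fun l13 => A2 fun l23 => A2 fun l04 => A2 fun l14 => A2 fun l24 => A2 fun l34 =>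
  chk t1 t2 t3 K M l01 l02 l12 l03 l13 l23 l04 l14 l24 l34

theorem allS_true {t1 : ℕ} {t2 : ℕ → ℕ → ℕ → ℕ → ℕ} {t3 K M l01 l02 l12 l03 l13 l23 l04 l14 l24 l34 : ℕ}
    (h : allS t1 t2 t3 K M = true) (hl01 : l01 < 2) (hl02 : l02 < 2) (hl12 : l12 < 2) (hl03 : l03 < 2) (hl13 : l13 < 2) (hl23 : l23 < 2) (hl04 : l04 < 2) (hl14 : l14 < 2) (hl24 : l24 < 2) (hl34 : l34 < 2) :
    chk t1 t2 t3 K M l01 l02 l12 l03 l13 l23 l04 l14 l24 l34 = true := by
  unfold allS at h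
  replace h := A2_true h hl01
  replace h := A2_true h hl02
  replace h := A2_true h hl12
  replace h := A2_true h hl03
  replace h := A2_true h hl13
  replace h := A2_true h hl23
  replace h := A2_true h hl04
  replace h := A2_true h hl14
  replace h := A2_true h hl24
  replace h := A2_true h hl34
  exact h

/-- symmetry of the table two under permutations of the triple -/
def sym2 (t2 : ℕ → ℕ → ℕ → ℕ → ℕ) : Bool :=
  A2 fun e => A2 fun p => A2 fun q => A2 fun r => A2 fun a => A2 fun b => A2 fun c => A2 fun d => A2 fun f => A2 fun g =>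
  A2 fun a' => A2 fun b' => A2 fun c' => A2 fun d' => A2 fun f' => A2 fun g' =>
  Nat.beq (dg (row (t2 e p q r) (ix6 a b c d f g)) (ix6 a' b' c' d' f' g')) (dg (row (t2 e p r q) (ix6 b a c d g f)) (ix6 b' a' c' d' g' f'))
  && Nat.beq (dg (row (t2 e p q r) (ix6 a b c d f g)) (ix6 a' b' c' d' f' g')) (dg (row (t2 e q p r) (ix6 a c b f d g)) (ix6 a' c' b' f' d' g'))

theorem sym2_true {t2 : ℕ → ℕ → ℕ → ℕ → ℕ} (h : sym2 t2 = true) {e p q r a b c d f g a' b' c' d' f' g' : ℕ}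
    (he : e < 2) (hp : p < 2) (hq : q < 2) (hr : r < 2) (ha : a < 2) (hb : b < 2) (hc : c < 2) (hd : d < 2) (hf : f < 2)
    (hg : g < 2) (ha' : a' < 2) (hb' : b' < 2) (hc' : c' < 2) (hd' : d' < 2) (hf' : f' < 2) (hg' : g' < 2) :
    dg (row (t2 e p q r) (ix6 a b c d f g)) (ix6 a' b' c' d' f' g') = dg (row (t2 e p r q) (ix6 b a c d g f)) (ix6 b' a' c' d' g' f')
    ∧ dg (row (t2 e p q r) (ix6 a b c d f g)) (ix6 a' b' c' d' f' g') = dg (row (t2 e q p r) (ix6 a c b f d g)) (ix6 a' c' b' f' d' g') := by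
  unfold sym2 at h
  have h2 := A2_true (A2_true (A2_true (A2_true (A2_true (A2_true (A2_true (A2_true (A2_true (A2_true (A2_true
    (A2_true (A2_true (A2_true (A2_true (A2_true h he) hp) hq) hr) ha) hb) hc) hd) hf) hg) ha') hb') hc') hd') hf') hg'
  rw [Bool.and_eq_true] at h2
  exact ⟨Nat.eq_of_beq_eq_true h2.1, Nat.eq_of_beq_eq_true h2.2⟩

/-- symmetry of the table one -/
def sym1 (t1 : ℕ) : Bool :=
  A2 fun e => A2 fun p => A2 fun q => A2 fun r =>
  Nat.beq (dg t1 (ix4 e p q r)) (dg t1 (ix4 e p r q)) && Nat.beq (dg t1 (ix4 e p q r)) (dg t1 (ix4 e q p r))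

theorem sym1_true {t1 : ℕ} (h : sym1 t1 = true) {e p q r : ℕ} (he : e < 2) (hp : p < 2) (hq : q < 2) (hr : r < 2) :
    dg t1 (ix4 e p q r) = dg t1 (ix4 e p r q) ∧ dg t1 (ix4 e p q r) = dg t1 (ix4 e q p r) := by
  unfold sym1 at h
  have h2 := A2_true (A2_true (A2_true (A2_true h he) hp) hq) hr
  rw [Bool.and_eq_true] at h2
  exact ⟨Nat.eq_of_beq_eq_true h2.1, Nat.eq_of_beq_eq_true h2.2⟩

/-- symmetry of the table three -/
def sym3 (t3 : ℕ) : Bool :=
  A2 fun e => A2 fun p => A2 fun q => A2 fun r => A2 fun e' => A2 fun p' => A2 fun q' => A2 fun r' =>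
  Nat.beq (dg (row t3 (ix4 e p q r)) (ix4 e' p' q' r')) (dg (row t3 (ix4 e q p r)) (ix4 e' p' q' r'))
  && Nat.beq (dg (row t3 (ix4 e p q r)) (ix4 e' p' q' r')) (dg (row t3 (ix4 e' p' q' r')) (ix4 e p q r))

theorem sym3_true {t3 : ℕ} (h : sym3 t3 = true) {e p q r e' p' q' r' : ℕ} (he : e < 2) (hp : p < 2) (hq : q < 2) (hr : r < 2)
    (he' : e' < 2) (hp' : p' < 2) (hq' : q' < 2) (hr' : r' < 2) :
    dg (row t3 (ix4 e p q r)) (ix4 e' p' q' r') = dg (row t3 (ix4 e q p r)) (ix4 e' p' q' r')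
    ∧ dg (row t3 (ix4 e p q r)) (ix4 e' p' q' r') = dg (row t3 (ix4 e' p' q' r')) (ix4 e p q r) := by
  unfold sym3 at h
  have h2 := A2_true (A2_true (A2_true (A2_true (A2_true (A2_true (A2_true (A2_true h he) hp) hq) hr) he') hp') hq') hr'
  rw [Bool.and_eq_true] at h2
  exact ⟨Nat.eq_of_beq_eq_true h2.1, Nat.eq_of_beq_eq_true h2.2⟩

/-- symmetry of the list of patterns -/
def symM (M : ℕ) : Bool :=
  A2 fun a => A2 fun b => A2 fun c => A2 fun d => A2 fun e => A2 fun f =>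
  (inM M (pat a b c d e f) == inM M (pat a c b e d f)) && ((inM M (pat a b c d e f) == inM M (pat b a c d f e))
  && (inM M (pat a b c d e f) == inM M (pat a d e b c f)))

theorem symM_true {M : ℕ} (h : symM M = true) {a b c d e f : ℕ} (ha : a < 2) (hb : b < 2) (hc : c < 2) (hd : d < 2)
    (he : e < 2) (hf : f < 2) : inM M (pat a b c d e f) = inM M (pat a c b e d f)
      ∧ inM M (pat a b c d e f) = inM M (pat b a c d f e) ∧ inM M (pat a b c d e f) = inM M (pat a d e b c f) := by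
  unfold symM at h
  have h2 := A2_true (A2_true (A2_true (A2_true (A2_true (A2_true h ha) hb) hc) hd) he) hf
  rw [Bool.and_eq_true, Bool.and_eq_true] at h2
  exact ⟨eq_of_beq h2.1, eq_of_beq h2.2.1, eq_of_beq h2.2.2⟩

theorem phi_L0 {l01 l02 l12 l03 l13 l23 l04 l14 l24 l34 e012 e013 e023 e123 e014 e024 e124 e034 e134 e234 : ℕ}
    (hl01 : l01 < 2) (hl02 : l02 < 2) (hl12 : l12 < 2) (hl03 : l03 < 2) (hl13 : l13 < 2) (hl23 : l23 < 2) (hl04 : l04 < 2) (hl14 : l14 < 2) (hl24 : l24 < 2) (hl34 : l34 < 2) (he012 : e012 < 2) (he013 : e013 < 2) (he023 : e023 < 2) (he123 : e123 < 2) (he014 : e014 < 2) (he024 : e024 < 2) (he124 : e124 < 2) (he034 : e034 < 2) (he134 : e134 < 2) (he234 : e234 < 2)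
    (h : lw l02 l03 l04 l12 l13 l14 = true) :
    phi l01 l12 l02 l13 l03 l23 l14 l04 l24 l34 e012 e013 e123 e023 e014 e124 e024 e134 e034 e234 < phi l01 l02 l12 l03 l13 l23 l04 l14 l24 l34 e012 e013 e023 e123 e014 e024 e124 e034 e134 e234 := by
  unfold lw at h
  have h2 := Nat.le_of_ble_eq_true h
  simp only [Nat.add_eq, Nat.mul_eq, Nat.succ_eq_add_one] at h2
  unfold phi
  omega

theorem phi_E0 {l01 l02 l12 l03 l13 l23 l04 l14 l24 l34 e012 e013 e023 e123 e014 e024 e124 e034 e134 e234 : ℕ}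
    (hl01 : l01 < 2) (hl02 : l02 < 2) (hl12 : l12 < 2) (hl03 : l03 < 2) (hl13 : l13 < 2) (hl23 : l23 < 2) (hl04 : l04 < 2) (hl14 : l14 < 2) (hl24 : l24 < 2) (hl34 : l34 < 2) (he012 : e012 < 2) (he013 : e013 < 2) (he023 : e023 < 2) (he123 : e123 < 2) (he014 : e014 < 2) (he024 : e024 < 2) (he124 : e124 < 2) (he034 : e034 < 2) (he134 : e134 < 2) (he234 : e234 < 2)
    (h : (fx l02 l03 l04 l12 l13 l14 && lw e023 e024 e034 e123 e124 e134) = true) :
    phi l01 l12 l02 l13 l03 l23 l14 l04 l24 l34 e012 e013 e123 e023 e014 e124 e024 e134 e034 e234 < phi l01 l02 l12 l03 l13 l23 l04 l14 l24 l34 e012 e013 e023 e123 e014 e024 e124 e034 e134 e234 := by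
  rw [Bool.and_eq_true] at h
  unfold fx lw at h
  have h1 := Nat.eq_of_beq_eq_true h.1
  have h2 := Nat.le_of_ble_eq_true h.2
  simp only [Nat.add_eq, Nat.mul_eq, Nat.succ_eq_add_one] at h1 h2
  unfold phi
  omega

theorem phi_L1 {l01 l02 l12 l03 l13 l23 l04 l14 l24 l34 e012 e013 e023 e123 e014 e024 e124 e034 e134 e234 : ℕ}
    (hl01 : l01 < 2) (hl02 : l02 < 2) (hl12 : l12 < 2) (hl03 : l03 < 2) (hl13 : l13 < 2) (hl23 : l23 < 2) (hl04 : l04 < 2) (hl14 : l14 < 2) (hl24 : l24 < 2) (hl34 : l34 < 2) (he012 : e012 < 2) (he013 : e013 < 2) (he023 : e023 < 2) (he123 : e123 < 2) (he014 : e014 < 2) (he024 : e024 < 2) (he124 : e124 < 2) (he034 : e034 < 2) (he134 : e134 < 2) (he234 : e234 < 2)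
    (h : lw l01 l13 l14 l02 l23 l24 = true) :
    phi l02 l01 l12 l03 l23 l13 l04 l24 l14 l34 e012 e023 e013 e123 e024 e014 e124 e034 e234 e134 < phi l01 l02 l12 l03 l13 l23 l04 l14 l24 l34 e012 e013 e023 e123 e014 e024 e124 e034 e134 e234 := by
  unfold lw at h
  have h2 := Nat.le_of_ble_eq_true h
  simp only [Nat.add_eq, Nat.mul_eq, Nat.succ_eq_add_one] at h2
  unfold phi
  omega

theorem phi_E1 {l01 l02 l12 l03 l13 l23 l04 l14 l24 l34 e012 e013 e023 e123 e014 e024 e124 e034 e134 e234 : ℕ}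
    (hl01 : l01 < 2) (hl02 : l02 < 2) (hl12 : l12 < 2) (hl03 : l03 < 2) (hl13 : l13 < 2) (hl23 : l23 < 2) (hl04 : l04 < 2) (hl14 : l14 < 2) (hl24 : l24 < 2) (hl34 : l34 < 2) (he012 : e012 < 2) (he013 : e013 < 2) (he023 : e023 < 2) (he123 : e123 < 2) (he014 : e014 < 2) (he024 : e024 < 2) (he124 : e124 < 2) (he034 : e034 < 2) (he134 : e134 < 2) (he234 : e234 < 2)
    (h : (fx l01 l13 l14 l02 l23 l24 && lw e013 e014 e134 e023 e024 e234) = true) :
    phi l02 l01 l12 l03 l23 l13 l04 l24 l14 l34 e012 e023 e013 e123 e024 e014 e124 e034 e234 e134 < phi l01 l02 l12 l03 l13 l23 l04 l14 l24 l34 e012 e013 e023 e123 e014 e024 e124 e034 e134 e234 := by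
  rw [Bool.and_eq_true] at h
  unfold fx lw at h
  have h1 := Nat.eq_of_beq_eq_true h.1
  have h2 := Nat.le_of_ble_eq_true h.2
  simp only [Nat.add_eq, Nat.mul_eq, Nat.succ_eq_add_one] at h1 h2
  unfold phi
  omega

theorem phi_L2 {l01 l02 l12 l03 l13 l23 l04 l14 l24 l34 e012 e013 e023 e123 e014 e024 e124 e034 e134 e234 : ℕ}
    (hl01 : l01 < 2) (hl02 : l02 < 2) (hl12 : l12 < 2) (hl03 : l03 < 2) (hl13 : l13 < 2) (hl23 : l23 < 2) (hl04 : l04 < 2) (hl14 : l14 < 2) (hl24 : l24 < 2) (hl34 : l34 < 2) (he012 : e012 < 2) (he013 : e013 < 2) (he023 : e023 < 2) (he123 : e123 < 2) (he014 : e014 < 2) (he024 : e024 < 2) (he124 : e124 < 2) (he034 : e034 < 2) (he134 : e134 < 2) (he234 : e234 < 2)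
    (h : lw l02 l12 l24 l03 l13 l34 = true) :
    phi l01 l03 l13 l02 l12 l23 l04 l14 l34 l24 e013 e012 e023 e123 e014 e034 e134 e024 e124 e234 < phi l01 l02 l12 l03 l13 l23 l04 l14 l24 l34 e012 e013 e023 e123 e014 e024 e124 e034 e134 e234 := by
  unfold lw at h
  have h2 := Nat.le_of_ble_eq_true h
  simp only [Nat.add_eq, Nat.mul_eq, Nat.succ_eq_add_one] at h2
  unfold phi
  omega

theorem phi_E2 {l01 l02 l12 l03 l13 l23 l04 l14 l24 l34 e012 e013 e023 e123 e014 e024 e124 e034 e134 e234 : ℕ}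
    (hl01 : l01 < 2) (hl02 : l02 < 2) (hl12 : l12 < 2) (hl03 : l03 < 2) (hl13 : l13 < 2) (hl23 : l23 < 2) (hl04 : l04 < 2) (hl14 : l14 < 2) (hl24 : l24 < 2) (hl34 : l34 < 2) (he012 : e012 < 2) (he013 : e013 < 2) (he023 : e023 < 2) (he123 : e123 < 2) (he014 : e014 < 2) (he024 : e024 < 2) (he124 : e124 < 2) (he034 : e034 < 2) (he134 : e134 < 2) (he234 : e234 < 2)
    (h : (fx l02 l12 l24 l03 l13 l34 && lw e012 e024 e124 e013 e034 e134) = true) :
    phi l01 l03 l13 l02 l12 l23 l04 l14 l34 l24 e013 e012 e023 e123 e014 e034 e134 e024 e124 e234 < phi l01 l02 l12 l03 l13 l23 l04 l14 l24 l34 e012 e013 e023 e123 e014 e024 e124 e034 e134 e234 := by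
  rw [Bool.and_eq_true] at h
  unfold fx lw at h
  have h1 := Nat.eq_of_beq_eq_true h.1
  have h2 := Nat.le_of_ble_eq_true h.2
  simp only [Nat.add_eq, Nat.mul_eq, Nat.succ_eq_add_one] at h1 h2
  unfold phi
  omega

theorem phi_L3 {l01 l02 l12 l03 l13 l23 l04 l14 l24 l34 e012 e013 e023 e123 e014 e024 e124 e034 e134 e234 : ℕ}
    (hl01 : l01 < 2) (hl02 : l02 < 2) (hl12 : l12 < 2) (hl03 : l03 < 2) (hl13 : l13 < 2) (hl23 : l23 < 2) (hl04 : l04 < 2) (hl14 : l14 < 2) (hl24 : l24 < 2) (hl34 : l34 < 2) (he012 : e012 < 2) (he013 : e013 < 2) (he023 : e023 < 2) (he123 : e123 < 2) (he014 : e014 < 2) (he024 : e024 < 2) (he124 : e124 < 2) (he034 : e034 < 2) (he134 : e134 < 2) (he234 : e234 < 2)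
    (h : lw l03 l13 l23 l04 l14 l24 = true) :
    phi l01 l02 l12 l04 l14 l24 l03 l13 l23 l34 e012 e014 e024 e124 e013 e023 e123 e034 e134 e234 < phi l01 l02 l12 l03 l13 l23 l04 l14 l24 l34 e012 e013 e023 e123 e014 e024 e124 e034 e134 e234 := by
  unfold lw at h
  have h2 := Nat.le_of_ble_eq_true h
  simp only [Nat.add_eq, Nat.mul_eq, Nat.succ_eq_add_one] at h2
  unfold phi
  omega

theorem phi_E3 {l01 l02 l12 l03 l13 l23 l04 l14 l24 l34 e012 e013 e023 e123 e014 e024 e124 e034 e134 e234 : ℕ}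
    (hl01 : l01 < 2) (hl02 : l02 < 2) (hl12 : l12 < 2) (hl03 : l03 < 2) (hl13 : l13 < 2) (hl23 : l23 < 2) (hl04 : l04 < 2) (hl14 : l14 < 2) (hl24 : l24 < 2) (hl34 : l34 < 2) (he012 : e012 < 2) (he013 : e013 < 2) (he023 : e023 < 2) (he123 : e123 < 2) (he014 : e014 < 2) (he024 : e024 < 2) (he124 : e124 < 2) (he034 : e034 < 2) (he134 : e134 < 2) (he234 : e234 < 2)
    (h : (fx l03 l13 l23 l04 l14 l24 && lw e013 e023 e123 e014 e024 e124) = true) :
    phi l01 l02 l12 l04 l14 l24 l03 l13 l23 l34 e012 e014 e024 e124 e013 e023 e123 e034 e134 e234 < phi l01 l02 l12 l03 l13 l23 l04 l14 l24 l34 e012 e013 e023 e123 e014 e024 e124 e034 e134 e234 := by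
  rw [Bool.and_eq_true] at h
  unfold fx lw at h
  have h1 := Nat.eq_of_beq_eq_true h.1
  have h2 := Nat.le_of_ble_eq_true h.2
  simp only [Nat.add_eq, Nat.mul_eq, Nat.succ_eq_add_one] at h1 h2
  unfold phi
  omega

end

end Pool.Agent.Q113.Lnk
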