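import Pool.Agent.Q113.Lnk.Degen
import Pool.Agent.Q113.Lnk.CW
import Pool.Agent.Q113.Lnk.PW
import Pool.Agent.Q113.Lnk.CC
import Pool.Agent.Q113.Lnk.DD
import Pool.Agent.Q113.Lnk.OE
import Pool.Agent.Q113.Lnk.EM

/-! Six graphs with four vertices: the inequality for the link of one vertex. -/

set_option autoImplicit false
set_option maxRecDepth 100000
open Finset
open scoped Classical
open Pool.Agent.H122R2.N6

namespace Pool.Agent.Q113.Lnk

/-- the claw `K_{1,3}` -/
def claw : Finset (Finset (Fin 4)) := {{0, 1}, {0, 2}, {0, 3}}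
/-- the paw, a triangle with a pendant edge -/
def paw : Finset (Finset (Fin 4)) := {{0, 1}, {0, 2}, {1, 2}, {0, 3}}
/-- the cycle with four vertices -/
def fourCycle : Finset (Finset (Fin 4)) := {{0, 1}, {1, 2}, {0, 3}, {2, 3}}
/-- the diamond `K_4^-` -/
def diamond : Finset (Finset (Fin 4)) := {{0, 2}, {1, 2}, {0, 3}, {1, 3}, {2, 3}}
/-- an edge with two isolated vertices -/
def oneEdge : Finset (Finset (Fin 4)) := {{0, 1}}
/-- four isolated vertices -/
def noEdge : Finset (Finset (Fin 4)) := ∅

noncomputable section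

theorem claw_good : Good 72057868917934080 claw := by
  unfold Good
  decide +kernel

theorem claw_V : VIneq claw (5) (329766 / 100000) 4000 := by
  intro n H h3 hK U hU v
  have h := vertex_le h3 hK (F := claw) (K := 6924116164952) (M := 72057868917934080) (A := 12366168450) (B := 824411230) (o1 := 178072825680)
    (o2 := 500000309449) (o3 := 74806026244) claw_good CW.s1 CW.s2 CW.s3 CW.sM CW.a1 CW.g2 CW.g3 CW.aS hU v
  have hZ : 0 ≤ (copies H claw U v : ℝ) / (U.card : ℝ) ^ 4 + 10 / U.card := by positivity
  push_cast at h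
  linarith

theorem paw_good : Good 1612368381871161344 paw := by
  unfold Good
  decide +kernel

theorem paw_V : VIneq paw (2) (164867 / 100000) 4000 := by
  intro n H h3 hK U hU v
  have h := vertex_le h3 hK (F := paw) (K := 8040352811200) (M := 1612368381871161344) (A := 24743924820) (B := 4123987470) (o1 := 445390646760)
    (o2 := 500000367361) (o3 := 68940904356) paw_good PW.s1 PW.s2 PW.s3 PW.sM PW.a1 PW.g2 PW.g3 PW.aS hU v
  have hZ : 0 ≤ (copies H paw U v : ℝ) / (U.card : ℝ) ^ 4 + 10 / U.card := by positivity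
  push_cast at h
  linarith

theorem fourCycle_good : Good 2286985259515904 fourCycle := by
  unfold Good
  decide +kernel

theorem fourCycle_V : VIneq fourCycle (4) (276427 / 100000) 4000 := by
  intro n H h3 hK U hU v
  have h := vertex_le h3 hK (F := fourCycle) (K := 6832371311600) (M := 2286985259515904) (A := 11058176760) (B := 921514730) (o1 := 165872651400)
    (o2 := 500000309449) (o3 := 72711661801) fourCycle_good CC.s1 CC.s2 CC.s3 CC.sM CC.a1 CC.g2 CC.g3 CC.aS hU v
  have hZ : 0 ≤ (copies H fourCycle U v : ℝ) / (U.card : ℝ) ^ 4 + 10 / U.card := by positivity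
  push_cast at h
  linarith

theorem diamond_good : Good 7530159316599308288 diamond := by
  unfold Good
  decide +kernel

theorem diamond_V : VIneq diamond (51 / 50) (108464 / 100000) 4000 := by
  intro n H h3 hK U hU v
  have h := vertex_le h3 hK (F := diamond) (K := 5037603100109) (M := 7530159316599308288) (A := 202879224) (B := 66300400) (o1 := 4821365088)
    (o2 := 500000309449) (o3 := 1018311921) diamond_good DD.s1 DD.s2 DD.s3 DD.sM DD.a1 DD.g2 DD.g3 DD.aS hU v
  have hZ : 0 ≤ (copies H diamond U v : ℝ) / (U.card : ℝ) ^ 4 + 10 / U.card := by positivity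
  push_cast at h
  linarith

theorem oneEdge_good : Good 4295033110 oneEdge := by
  unfold Good
  decide +kernel

theorem oneEdge_V : VIneq oneEdge (3) (222017 / 100000) 4000 := by
  intro n H h3 hK U hU v
  have h := vertex_le h3 hK (F := oneEdge) (K := 5027117128790) (M := 4295033110) (A := 173429550) (B := 19269950) (o1 := 2774872800)
    (o2 := 500000309449) (o3 := 984464858) oneEdge_good OE.s1 OE.s2 OE.s3 OE.sM OE.a1 OE.g2 OE.g3 OE.aS hU v
  have hZ : 0 ≤ (copies H oneEdge U v : ℝ) / (U.card : ℝ) ^ 4 + 10 / U.card := by positivity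
  push_cast at h
  linarith

theorem noEdge_good : Good 1 noEdge := by
  unfold Good
  decide +kernel

theorem noEdge_V : VIneq noEdge (5) (33325 / 10000) 4000 := by
  intro n H h3 hK U hU v
  have h := vertex_le h3 hK (F := noEdge) (K := 6293744705895) (M := 1) (A := 9909899250) (B := 660659950) (o1 := 142702549200)
    (o2 := 499999974004) (o3 := 43954051036) noEdge_good EM.s1 EM.s2 EM.s3 EM.sM EM.a1 EM.g2 EM.g3 EM.aS hU v
  have hZ : 0 ≤ (copies H noEdge U v : ℝ) / (U.card : ℝ) ^ 4 + 10 / U.card := by positivity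
  push_cast at h
  linarith

end

end Pool.Agent.Q113.Lnk
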