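import Pool.Agent.Q113.Lnk.Defs

/-! Tables of sums of squares. -/

set_option autoImplicit false
set_option linter.unusedVariables false
set_option maxRecDepth 100000
open Finset

namespace Pool.Agent.Q113.Lnk

noncomputable section

/-- sums over lists of rows -/
def lsA (s : ℕ) (l : List ℕ) : ℕ := @List.rec ℕ (fun _ => ℕ) 0 (fun R _ ih => Nat.add (Nat.mul (dg R s) R) ih) l
def lsB (s : ℕ) (l : List ℕ) : ℕ := @List.rec ℕ (fun _ => ℕ) 0 (fun R _ ih => Nat.add (dg R s) ih) l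
def lsC (s : ℕ) (l : List ℕ) : ℕ := @List.rec ℕ (fun _ => ℕ) 0 (fun R _ ih => Nat.add (Nat.mul (dg R s) (dg R s)) ih) l
def lsS (l : List ℕ) : ℕ := @List.rec ℕ (fun _ => ℕ) 0 (fun R _ ih => Nat.add R ih) l
def lsK (l : List ℕ) : ℕ := @List.rec ℕ (fun _ => ℕ) 0 (fun R _ ih => Nat.add 1 ih) l
def lsR (l : List ℕ) : Bool := @List.rec ℕ (fun _ => Bool) true (fun R _ ih => Nat.blt R (Nat.pow 2 2560) && ih) l

/-- the number with all entries one -/
def rep : ℕ := Nat.div (Nat.sub (Nat.pow 2 2560) 1) 1099511627775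

/-- the check of one row -/
def gr1 (T o D Q k S : ℕ) (l : List ℕ) (s : ℕ) : Bool :=
  Nat.beq (Nat.add (Nat.add (row T s) (lsA s l)) (Nat.mul (Nat.mul k (Nat.mul D D)) rep))
    (Nat.add (Nat.mul o rep) (Nat.mul D (Nat.add S (Nat.mul rep (lsB s l)))))
  && Nat.ble (Nat.add (lsC s l) (Nat.mul k (Nat.mul D D))) (Nat.add Q (Nat.mul (Nat.mul 2 D) (lsB s l)))

/-- the check of a table -/
def gok (T o D Q k S : ℕ) (l : List ℕ) : Bool :=
  (Nat.beq (lsK l) k && (Nat.beq (lsS l) S && (lsR l && (Nat.ble Q o && Nat.blt (Nat.add o Q) 1099511627776))))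
  && A2 fun a => A2 fun b => A2 fun c => A2 fun d => A2 fun e => A2 fun f => gr1 T o D Q k S l (ix6 a b c d e f)

/-- the entry of the matrix given by the rows -/
def Mx (D : ℕ) (l : List ℕ) (s j : ℕ) : ℤ := (l.map fun R => ((dg R s : ℤ) - D) * ((dg R j : ℤ) - D)).sum

theorem dg_lt (T i : ℕ) : dg T i < 1099511627776 := Nat.mod_lt _ (by norm_num)

theorem dg_zero (T : ℕ) : dg T 0 = T % 1099511627776 := rfl

theorem nmod (a b : ℕ) : Nat.mod a b = a % b := rfl
theorem nshr (a b : ℕ) : Nat.shiftRight a b = a / 2 ^ b := Nat.shiftRight_eq_div_pow a b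

theorem dg_succ (T i : ℕ) : dg T (i + 1) = dg (T / 1099511627776) i := by
  have e : ∀ A k, dg A k = A / 2 ^ (40 * k) % 1099511627776 := by
    intro A k
    unfold dg
    rw [nmod, nshr]
    rfl
  have h40 : (2 : ℕ) ^ 40 = 1099511627776 := by norm_num
  have h : 2 ^ (40 * (i + 1)) = 1099511627776 * 2 ^ (40 * i) := by
    rw [← h40, ← pow_add, mul_add, mul_one, add_comm]
  rw [e T (i + 1), e (T / 1099511627776) i, h, Nat.div_div_eq_div_mul]

theorem digits_sum (n : ℕ) : ∀ R : ℕ, R < 1099511627776 ^ n →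
    (R : ℤ) = ∑ s ∈ range n, (dg R s : ℤ) * 1099511627776 ^ s := by
  induction n with
  | zero =>
    intro R hR
    have : R = 0 := by simpa using hR
    simp [this]
  | succ n ih =>
    intro R hR
    rw [sum_range_succ']
    have h1 : R / 1099511627776 < 1099511627776 ^ n := by
      rw [Nat.div_lt_iff_lt_mul (by norm_num)]
      rwa [pow_succ] at hR
    have h2 := ih _ h1
    have h3 : ∑ s ∈ range n, (dg R (s + 1) : ℤ) * 1099511627776 ^ (s + 1)
        = 1099511627776 * ((R / 1099511627776 : ℕ) : ℤ) := by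
      rw [h2, mul_sum]
      refine sum_congr rfl fun s _ => ?_
      rw [dg_succ]
      ring
    rw [h3, dg_zero]
    have h4 := Nat.div_add_mod R 1099511627776
    have h5 : (R : ℤ) = 1099511627776 * ((R / 1099511627776 : ℕ) : ℤ) + ((R % 1099511627776 : ℕ) : ℤ) := by
      exact_mod_cast h4.symm
    simp only [pow_zero, mul_one]
    exact h5

theorem uniq (n : ℕ) : ∀ f g : ℕ → ℤ, (∀ s < n, 0 ≤ f s ∧ f s < 1099511627776) → (∀ s < n, 0 ≤ g s ∧ g s < 1099511627776) →
    ∑ s ∈ range n, f s * 1099511627776 ^ s = ∑ s ∈ range n, g s * 1099511627776 ^ s → ∀ s < n, f s = g s := by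
  induction n with
  | zero =>
    intro f g _ _ _ s hs
    omega
  | succ n ih =>
    intro f g hf hg h s hs
    rw [sum_range_succ', sum_range_succ'] at h
    have e : ∀ u : ℕ → ℤ, ∑ k ∈ range n, u (k + 1) * 1099511627776 ^ (k + 1)
        = 1099511627776 * ∑ k ∈ range n, u (k + 1) * 1099511627776 ^ k := by
      intro u
      rw [mul_sum]
      refine sum_congr rfl fun k _ => ?_
      ring
    rw [e f, e g] at h
    simp only [pow_zero, mul_one] at h
    have f0 := hf 0 (by omega)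
    have g0 := hg 0 (by omega)
    set X := ∑ k ∈ range n, f (k + 1) * 1099511627776 ^ k
    set Y := ∑ k ∈ range n, g (k + 1) * 1099511627776 ^ k
    have h0 : f 0 = g 0 := by omega
    have h1 : X = Y := by omega
    cases s with
    | zero => exact h0
    | succ s =>
      exact ih (fun k => f (k + 1)) (fun k => g (k + 1)) (fun k hk => hf (k + 1) (by omega))
        (fun k hk => hg (k + 1) (by omega)) h1 s (by omega)

theorem rep_eq : (rep : ℤ) = ∑ s ∈ range 64, (1099511627776 : ℤ) ^ s := by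
  have h : rep = ∑ s ∈ range 64, 1099511627776 ^ s := by decide +kernel
  rw [h]
  push_cast
  rfl

theorem Mx_sum (D : ℕ) (s : ℕ) (l : List ℕ) (h : lsR l = true) :
    ∑ j ∈ range 64, Mx D l s j * 1099511627776 ^ j
      = (lsA s l : ℤ) + lsK l * ((D : ℤ) * D) * rep - D * ((lsS l : ℤ) + rep * lsB s l) := by
  induction l with
  | nil =>
    have : ∀ j, Mx D [] s j = 0 := fun j => rfl
    simp only [this, zero_mul, sum_const_zero]
    show (0 : ℤ) = ((0 : ℕ) : ℤ) + ((0 : ℕ) : ℤ) * ((D : ℤ) * D) * rep - D * (((0 : ℕ) : ℤ) + rep * ((0 : ℕ) : ℤ))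
    simp
  | cons R l ih =>
    have hR : R < 1099511627776 ^ 64 ∧ lsR l = true := by
      have h' : (Nat.blt R (Nat.pow 2 2560) && lsR l) = true := h
      rw [Bool.and_eq_true] at h'
      refine ⟨?_, h'.2⟩
      have h1 := Nat.le_of_ble_eq_true h'.1
      have h2 : Nat.pow 2 2560 = 1099511627776 ^ 64 := by decide +kernel
      rw [h2] at h1
      exact h1
    have h1 := ih hR.2
    have h2 := digits_sum 64 R hR.1
    have e : ∀ j, Mx D (R :: l) s j = ((dg R s : ℤ) - D) * ((dg R j : ℤ) - D) + Mx D l s j := by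
      intro j
      unfold Mx
      rw [List.map_cons, List.sum_cons]
    have h3 : ∑ j ∈ range 64, ((dg R s : ℤ) - D) * ((dg R j : ℤ) - D) * 1099511627776 ^ j
        = ((dg R s : ℤ) - D) * ((R : ℤ) - D * rep) := by
      conv_rhs => rw [h2, rep_eq]
      rw [mul_sub, mul_sum, mul_sum, mul_sum, ← sum_sub_distrib]
      refine sum_congr rfl fun j _ => ?_
      ring
    simp only [e, add_mul, sum_add_distrib]
    rw [h3, h1]
    have a1 : lsA s (R :: l) = dg R s * R + lsA s l := rfl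
    have a2 : lsB s (R :: l) = dg R s + lsB s l := rfl
    have a3 : lsS (R :: l) = R + lsS l := rfl
    have a4 : lsK (R :: l) = 1 + lsK l := rfl
    rw [a1, a2, a3, a4]
    push_cast
    ring

theorem Mx_diag (D : ℕ) (s : ℕ) (l : List ℕ) :
    Mx D l s s = (lsC s l : ℤ) + lsK l * ((D : ℤ) * D) - 2 * D * lsB s l := by
  induction l with
  | nil =>
    show (0 : ℤ) = ((0 : ℕ) : ℤ) + ((0 : ℕ) : ℤ) * ((D : ℤ) * D) - 2 * D * ((0 : ℕ) : ℤ)
    simp
  | cons R l ih =>
    have e : Mx D (R :: l) s s = ((dg R s : ℤ) - D) * ((dg R s : ℤ) - D) + Mx D l s s := by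
      unfold Mx
      rw [List.map_cons, List.sum_cons]
    have a1 : lsC s (R :: l) = dg R s * dg R s + lsC s l := rfl
    have a2 : lsB s (R :: l) = dg R s + lsB s l := rfl
    have a4 : lsK (R :: l) = 1 + lsK l := rfl
    rw [e, ih, a1, a2, a4]
    push_cast
    ring

theorem Mx_abs (D : ℕ) (s j : ℕ) (l : List ℕ) :
    2 * Mx D l s j ≤ Mx D l s s + Mx D l j j ∧ -(2 * Mx D l s j) ≤ Mx D l s s + Mx D l j j := by
  induction l with
  | nil =>
    have : ∀ a b, Mx D [] a b = 0 := fun a b => rfl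
    simp [this]
  | cons R l ih =>
    have e : ∀ a b, Mx D (R :: l) a b = ((dg R a : ℤ) - D) * ((dg R b : ℤ) - D) + Mx D l a b := by
      intro a b
      unfold Mx
      rw [List.map_cons, List.sum_cons]
    rw [e, e, e]
    constructor
    · nlinarith [ih.1, sq_nonneg (((dg R s : ℤ) - D) - ((dg R j : ℤ) - D))]
    · nlinarith [ih.2, sq_nonneg (((dg R s : ℤ) - D) + ((dg R j : ℤ) - D))]

theorem ix6_surj {s : ℕ} (hs : s < 64) : ∃ a b c d e f : ℕ, (a < 2 ∧ b < 2 ∧ c < 2 ∧ d < 2 ∧ e < 2 ∧ f < 2) ∧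
    s = ix6 a b c d e f := by
  refine ⟨s % 2, s / 2 % 2, s / 4 % 2, s / 8 % 2, s / 16 % 2, s / 32 % 2, ⟨?_, ?_, ?_, ?_, ?_, ?_⟩, ?_⟩
  · omega
  · omega
  · omega
  · omega
  · omega
  · omega
  · show s = s % 2 + 2 * (s / 2 % 2 + 2 * (s / 4 % 2 + 2 * (s / 8 % 2 + 2 * (s / 16 % 2 + 2 * (s / 32 % 2)))))
    omega

/-- the table is a constant minus a positive semidefinite matrix -/
def Gm (T o : ℕ) : Prop := ∃ (D : ℕ) (l : List ℕ), ∀ s < 64, ∀ j < 64, (dg (row T s) j : ℤ) = o - Mx D l s j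

theorem gok_Gm {T o D Q k S : ℕ} {l : List ℕ} (h : gok T o D Q k S l = true) : Gm T o := by
  unfold gok at h
  rw [Bool.and_eq_true, Bool.and_eq_true, Bool.and_eq_true, Bool.and_eq_true, Bool.and_eq_true] at h
  obtain ⟨⟨hk, hS, hR, hQ, hB⟩, hr⟩ := h
  have hk := Nat.eq_of_beq_eq_true hk
  have hS := Nat.eq_of_beq_eq_true hS
  have hQ := Nat.le_of_ble_eq_true hQ
  have hB : o + Q < 1099511627776 := Nat.le_of_ble_eq_true hB
  have hrow : ∀ s < 64, gr1 T o D Q k S l s = true := by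
    intro s hs
    obtain ⟨a, b, c, d, e, f, ⟨ha, hb, hc, hd, he, hf⟩, rfl⟩ := ix6_surj hs
    exact A2_true (A2_true (A2_true (A2_true (A2_true (A2_true hr ha) hb) hc) hd) he) hf
  have hdiag : ∀ s < 64, Mx D l s s ≤ Q := by
    intro s hs
    have h1 := hrow s hs
    unfold gr1 at h1
    rw [Bool.and_eq_true] at h1
    have h2 : lsC s l + k * (D * D) ≤ Q + 2 * D * lsB s l := Nat.le_of_ble_eq_true h1.2
    rw [Mx_diag, hk]
    have h3 : (lsC s l : ℤ) + k * ((D : ℤ) * D) ≤ Q + 2 * D * lsB s l := by exact_mod_cast h2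
    linarith
  refine ⟨D, l, fun s hs j hj => ?_⟩
  have h1 := hrow s hs
  unfold gr1 at h1
  rw [Bool.and_eq_true] at h1
  have h2 : row T s + lsA s l + k * (D * D) * rep = o * rep + D * (S + rep * lsB s l) := Nat.eq_of_beq_eq_true h1.1
  have h3 : (row T s : ℤ) + lsA s l + k * ((D : ℤ) * D) * rep = o * rep + D * (S + rep * lsB s l) := by exact_mod_cast h2
  have h4 := Mx_sum D s l hR
  rw [hk, hS] at h4
  have hT : row T s < 1099511627776 ^ 64 := by
    have h2 : Nat.pow 2 2560 = 1099511627776 ^ 64 := by decide +kernel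
    rw [← h2]
    exact Nat.mod_lt _ (by rw [h2]; positivity)
  have h5 := digits_sum 64 _ hT
  have h6 : ∑ j ∈ range 64, (dg (row T s) j : ℤ) * 1099511627776 ^ j
      = ∑ j ∈ range 64, ((o : ℤ) - Mx D l s j) * 1099511627776 ^ j := by
    rw [← h5]
    simp only [sub_mul, sum_sub_distrib]
    rw [h4, ← mul_sum, ← rep_eq]
    linarith
  refine uniq 64 (fun j => (dg (row T s) j : ℤ)) (fun j => (o : ℤ) - Mx D l s j) ?_ ?_ h6 j hj
  · intro i _
    refine ⟨Int.natCast_nonneg _, ?_⟩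
    exact_mod_cast dg_lt (row T s) i
  · intro i hi
    have m1 := hdiag s hs
    have m2 := hdiag i hi
    have m3 := Mx_abs D s i l
    have hQ' : (Q : ℤ) ≤ o := by exact_mod_cast hQ
    have hB' : (o : ℤ) + Q < 1099511627776 := by exact_mod_cast hB
    constructor
    · show 0 ≤ (o : ℤ) - Mx D l s i
      omega
    · show (o : ℤ) - Mx D l s i < _
      omega

theorem Mx_comm (D : ℕ) (l : List ℕ) (s j : ℕ) : Mx D l s j = Mx D l j s := by
  unfold Mx
  congr 2
  funext R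
  ring

theorem Gm_symm {T o : ℕ} (h : Gm T o) {s j : ℕ} (hs : s < 64) (hj : j < 64) : dg (row T s) j = dg (row T j) s := by
  obtain ⟨D, l, h⟩ := h
  have h1 := h s hs j hj
  have h2 := h j hj s hs
  rw [Mx_comm] at h2
  have : (dg (row T s) j : ℤ) = dg (row T j) s := by rw [h1, h2]
  exact_mod_cast this

theorem psd_list {ι : Type} (S : Finset ι) (u : ι → ℝ) (f : ι → ℕ) (D : ℕ) (l : List ℕ) :
    0 ≤ ∑ i ∈ S, ∑ j ∈ S, u i * u j * (Mx D l (f i) (f j) : ℝ) := by
  induction l with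
  | nil =>
    have : ∀ a b, Mx D [] a b = 0 := fun a b => rfl
    simp [this]
  | cons R l ih =>
    have e : ∀ a b, Mx D (R :: l) a b = ((dg R a : ℤ) - D) * ((dg R b : ℤ) - D) + Mx D l a b := by
      intro a b
      unfold Mx
      rw [List.map_cons, List.sum_cons]
    have h1 : ∑ i ∈ S, ∑ j ∈ S, u i * u j * (Mx D (R :: l) (f i) (f j) : ℝ)
        = (∑ i ∈ S, u i * ((dg R (f i) : ℝ) - D)) ^ 2 + ∑ i ∈ S, ∑ j ∈ S, u i * u j * (Mx D l (f i) (f j) : ℝ) := by
      rw [sq, sum_mul_sum]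
      rw [← sum_add_distrib]
      refine sum_congr rfl fun i _ => ?_
      rw [← sum_add_distrib]
      refine sum_congr rfl fun j _ => ?_
      rw [e]
      push_cast
      ring
    rw [h1]
    exact add_nonneg (sq_nonneg _) ih

theorem Gm_psd {T o : ℕ} (h : Gm T o) {ι : Type} (S : Finset ι) (u : ι → ℝ) (hu : ∑ i ∈ S, u i = 1) (f : ι → ℕ)
    (hf : ∀ i, f i < 64) : ∑ i ∈ S, ∑ j ∈ S, u i * u j * (dg (row T (f i)) (f j) : ℝ) ≤ o := by
  obtain ⟨D, l, h⟩ := h
  have h1 := psd_list S u f D l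
  have h2 : ∀ i j, (dg (row T (f i)) (f j) : ℝ) = (o : ℝ) - (Mx D l (f i) (f j) : ℝ) := by
    intro i j
    have := h (f i) (hf i) (f j) (hf j)
    have h3 : ((dg (row T (f i)) (f j) : ℤ) : ℝ) = ((o - Mx D l (f i) (f j) : ℤ) : ℝ) := by rw [this]
    push_cast at h3
    exact h3
  have h4 : ∑ i ∈ S, ∑ j ∈ S, u i * u j * (dg (row T (f i)) (f j) : ℝ)
      = o * (∑ i ∈ S, u i) * (∑ j ∈ S, u j) - ∑ i ∈ S, ∑ j ∈ S, u i * u j * (Mx D l (f i) (f j) : ℝ) := by
    rw [mul_assoc, sum_mul_sum, mul_sum, ← sum_sub_distrib]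
    refine sum_congr rfl fun i _ => ?_
    rw [mul_sum, ← sum_sub_distrib]
    refine sum_congr rfl fun j _ => ?_
    rw [h2]
    ring
  rw [h4, hu]
  linarith

end

end Pool.Agent.Q113.Lnk
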