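import Pool.Agent.Q113.Lnk.Defs

/-! Symmetric sums over five vertices and the pointwise inequality. -/

set_option autoImplicit false
set_option linter.unusedVariables false
set_option linter.unusedSimpArgs false
set_option maxHeartbeats 4000000
set_option maxRecDepth 100000
open Finset
open Pool.Agent.H122R2.N6 (Sy NoK4 Bt k4b)
open Pool.Agent.Q113.Hyb (g10 g15 g5)

namespace Pool.Agent.Q113.Lnk

theorem g10_s0 {V : Type} {F : V → V → V → V → V → ℝ}
    (p1 : ∀ a b c x y, F b a c x y = F a b c x y) (p2 : ∀ a b c x y, F a c b x y = F a b c x y)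
    (p3 : ∀ a b c x y, F a b c y x = F a b c x y)
    (a b c x y : V) : g10 F b a c x y = g10 F a b c x y := by
  unfold g10
  linarith [p3 c x y a b, p1 a b y c x, p1 a b x c y, p1 a b c x y]

theorem g10_s1 {V : Type} {F : V → V → V → V → V → ℝ}
    (p1 : ∀ a b c x y, F b a c x y = F a b c x y) (p2 : ∀ a b c x y, F a c b x y = F a b c x y)
    (p3 : ∀ a b c x y, F a b c y x = F a b c x y)
    (a b c x y : V) : g10 F a c b x y = g10 F a b c x y := by
  unfold g10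
  linarith [p1 b c y a x, p1 b c x a y, p3 a x y b c, p2 a b c x y]

theorem g10_s2 {V : Type} {F : V → V → V → V → V → ℝ}
    (p1 : ∀ a b c x y, F b a c x y = F a b c x y) (p2 : ∀ a b c x y, F a c b x y = F a b c x y)
    (p3 : ∀ a b c x y, F a b c y x = F a b c x y)
    (a b c x y : V) : g10 F a b x c y = g10 F a b c x y := by
  unfold g10
  linarith [p1 c x y a b, p2 b c x a y, p2 a c x b y, p3 a b y c x]

theorem g10_s3 {V : Type} {F : V → V → V → V → V → ℝ}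
    (p1 : ∀ a b c x y, F b a c x y = F a b c x y) (p2 : ∀ a b c x y, F a c b x y = F a b c x y)
    (p3 : ∀ a b c x y, F a b c y x = F a b c x y)
    (a b c x y : V) : g10 F a b c y x = g10 F a b c x y := by
  unfold g10
  linarith [p2 c x y a b, p2 b x y a c, p2 a x y b c, p3 a b c x y]

theorem g15_s0 {V : Type} {F : V → V → V → V → V → ℝ}
    (r1 : ∀ a b c x y, F a c b x y = F a b c x y) (r2 : ∀ a b c x y, F a x y b c = F a b c x y)
    (r3 : ∀ a b c x y, F a b c y x = F a b c x y)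
    (a b c x y : V) : g15 F b a c x y = g15 F a b c x y := by
  unfold g15
  linarith [r1 c a b x y, r2 c a y b x, r2 c a x b y, r1 x a b c y, r2 x a y b c, r2 x a c b y, r1 y a b c x, r2 y a x b c, r2 y a c b x]

theorem g15_s1 {V : Type} {F : V → V → V → V → V → ℝ}
    (r1 : ∀ a b c x y, F a c b x y = F a b c x y) (r2 : ∀ a b c x y, F a x y b c = F a b c x y)
    (r3 : ∀ a b c x y, F a b c y x = F a b c x y)
    (a b c x y : V) : g15 F a c b x y = g15 F a b c x y := by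
  unfold g15
  linarith [r1 a b c x y, r2 a b y c x, r2 a b x c y, r3 x a y b c, r3 y a x b c]

theorem g15_s2 {V : Type} {F : V → V → V → V → V → ℝ}
    (r1 : ∀ a b c x y, F a c b x y = F a b c x y) (r2 : ∀ a b c x y, F a x y b c = F a b c x y)
    (r3 : ∀ a b c x y, F a b c y x = F a b c x y)
    (a b c x y : V) : g15 F a b x c y = g15 F a b c x y := by
  unfold g15
  linarith [r3 a b y c x, r3 b a y c x, r3 y a b c x]

theorem g15_s3 {V : Type} {F : V → V → V → V → V → ℝ}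
    (r1 : ∀ a b c x y, F a c b x y = F a b c x y) (r2 : ∀ a b c x y, F a x y b c = F a b c x y)
    (r3 : ∀ a b c x y, F a b c y x = F a b c x y)
    (a b c x y : V) : g15 F a b c y x = g15 F a b c x y := by
  unfold g15
  linarith [r3 a b c x y, r3 b a c x y, r3 c a b x y]

theorem g5_s0 {V : Type} {F : V → V → V → V → V → ℝ}
    (q1 : ∀ a b c x y, F b a c x y = F a b c x y) (q2 : ∀ a b c x y, F a c b x y = F a b c x y)
    (q3 : ∀ a b c x y, F a b x c y = F a b c x y)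
    (a b c x y : V) : g5 F b a c x y = g5 F a b c x y := by
  unfold g5
  linarith [q1 a b x y c, q1 a b c y x, q1 a b c x y]

theorem g5_s1 {V : Type} {F : V → V → V → V → V → ℝ}
    (q1 : ∀ a b c x y, F b a c x y = F a b c x y) (q2 : ∀ a b c x y, F a c b x y = F a b c x y)
    (q3 : ∀ a b c x y, F a b x c y = F a b c x y)
    (a b c x y : V) : g5 F a c b x y = g5 F a b c x y := by
  unfold g5
  linarith [q1 b c x y a, q2 a b c y x, q2 a b c x y]

theorem g5_s2 {V : Type} {F : V → V → V → V → V → ℝ}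
    (q1 : ∀ a b c x y, F b a c x y = F a b c x y) (q2 : ∀ a b c x y, F a c b x y = F a b c x y)
    (q3 : ∀ a b c x y, F a b x c y = F a b c x y)
    (a b c x y : V) : g5 F a b x c y = g5 F a b c x y := by
  unfold g5
  linarith [q2 b c x y a, q2 a c x y b, q3 a b c x y]

theorem g5_s3 {V : Type} {F : V → V → V → V → V → ℝ}
    (q1 : ∀ a b c x y, F b a c x y = F a b c x y) (q2 : ∀ a b c x y, F a c b x y = F a b c x y)
    (q3 : ∀ a b c x y, F a b x c y = F a b c x y)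
    (a b c x y : V) : g5 F a b c y x = g5 F a b c x y := by
  unfold g5
  linarith [q3 b c x y a, q3 a c x y b, q3 a b x y c]

section
variable {V : Type} [Fintype V] (E : V → V → V → ℕ) (L : V → V → ℕ)

noncomputable section

def F1 (t1 : ℕ) (a b c x y : V) : ℝ := (dg t1 (ix4 (E a b c) (L a b) (L a c) (L b c)) : ℕ)
def F2 (t2 : ℕ → ℕ → ℕ → ℕ → ℕ) (a b c x y : V) : ℝ :=
  (dg (row (t2 (E a b c) (L a b) (L a c) (L b c)) (ix6 (L a x) (L b x) (L c x) (E a b x) (E a c x) (E b c x)))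
    (ix6 (L a y) (L b y) (L c y) (E a b y) (E a c y) (E b c y)) : ℕ)
def F3 (t3 : ℕ) (a b c x y : V) : ℝ :=
  (dg (row t3 (ix4 (E a b c) (L a b) (L a c) (L b c))) (ix4 (E a x y) (L a x) (L a y) (L x y)) : ℕ)
/-- the indicator of: the graph on the first four vertices is in the list -/
def Bd (M : ℕ) (a b c x y : V) : ℝ :=
  if inM M (pat (L a b) (L a c) (L b c) (L a x) (L b x) (L c x)) = true then 1 else 0
def ph (a b c x y : V) : ℕ := phi (L a b) (L a c) (L b c) (L a x) (L b x) (L c x) (L a y) (L b y) (L c y) (L x y) (E a b c) (E a b x) (E a c x) (E b c x) (E a b y) (E a c y) (E b c y) (E a x y) (E b x y) (E c x y)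

variable {E} {L}

/-- the conditions on the graph -/
structure Gr (E : V → V → V → ℕ) (L : V → V → ℕ) : Prop where
  b : ∀ x y, L x y < 2
  s : ∀ x y, L y x = L x y
  t : ∀ x y z, E x y z + L x y + L x z + L y z ≠ 4

theorem kE (hK : NoK4 E) (a b c x : V) : k4 (E a b c) (E a b x) (E a c x) (E b c x) = false := by
  have k := ne4 hK a b c x
  unfold k4
  rw [← Bool.not_eq_true]
  intro h2
  rw [Nat.beq_eq] at h2
  apply k
  have : E a b c + E a b x + (E a c x + E b c x) = 4 := h2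
  omega

theorem kT (hG : Gr E L) (a b c : V) : k4 (E a b c) (L a b) (L a c) (L b c) = false := by
  have k := hG.t a b c
  unfold k4
  rw [← Bool.not_eq_true]
  intro h2
  rw [Nat.beq_eq] at h2
  apply k
  have : E a b c + L a b + (L a c + L b c) = 4 := h2
  omega

theorem F1_p1 (hE : Sy E) (hG : Gr E L) {t1 : ℕ} (h : sym1 t1 = true) (a b c x y : V) :
    F1 E L t1 b a c x y = F1 E L t1 a b c x y := by
  unfold F1
  rw [hE.h213 a b c, hG.s a b, (sym1_true h (lt2 hE a b c) (hG.b a b) (hG.b a c) (hG.b b c)).1]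

theorem F1_p2 (hE : Sy E) (hG : Gr E L) {t1 : ℕ} (h : sym1 t1 = true) (a b c x y : V) :
    F1 E L t1 a c b x y = F1 E L t1 a b c x y := by
  unfold F1
  rw [hE.h132 a b c, hG.s b c, (sym1_true h (lt2 hE a b c) (hG.b a b) (hG.b a c) (hG.b b c)).2]

theorem F2_p1 (hE : Sy E) (hG : Gr E L) {t2 : ℕ → ℕ → ℕ → ℕ → ℕ} (h : sym2 t2 = true) (a b c x y : V) :
    F2 E L t2 b a c x y = F2 E L t2 a b c x y := by
  unfold F2
  rw [hE.h213 a b c, hG.s a b, hE.h213 a b x, hE.h213 a b y, (sym2_true h (lt2 hE a b c) (hG.b a b) (hG.b a c) (hG.b b c)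
    (hG.b a x) (hG.b b x) (hG.b c x) (lt2 hE a b x) (lt2 hE a c x) (lt2 hE b c x)
    (hG.b a y) (hG.b b y) (hG.b c y) (lt2 hE a b y) (lt2 hE a c y) (lt2 hE b c y)).1]

theorem F2_p2 (hE : Sy E) (hG : Gr E L) {t2 : ℕ → ℕ → ℕ → ℕ → ℕ} (h : sym2 t2 = true) (a b c x y : V) :
    F2 E L t2 a c b x y = F2 E L t2 a b c x y := by
  unfold F2
  rw [hE.h132 a b c, hG.s b c, hE.h213 b c x, hE.h213 b c y, (sym2_true h (lt2 hE a b c) (hG.b a b) (hG.b a c) (hG.b b c)
    (hG.b a x) (hG.b b x) (hG.b c x) (lt2 hE a b x) (lt2 hE a c x) (lt2 hE b c x)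
    (hG.b a y) (hG.b b y) (hG.b c y) (lt2 hE a b y) (lt2 hE a c y) (lt2 hE b c y)).2]

theorem F3_r1 (hE : Sy E) (hG : Gr E L) {t3 : ℕ} (h : sym3 t3 = true) (a b c x y : V) :
    F3 E L t3 a c b x y = F3 E L t3 a b c x y := by
  unfold F3
  rw [hE.h132 a b c, hG.s b c, (sym3_true h (lt2 hE a b c) (hG.b a b) (hG.b a c) (hG.b b c)
    (lt2 hE a x y) (hG.b a x) (hG.b a y) (hG.b x y)).1]

theorem F3_r2 (hE : Sy E) (hG : Gr E L) {t3 : ℕ} (h : sym3 t3 = true) (a b c x y : V) :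
    F3 E L t3 a x y b c = F3 E L t3 a b c x y := by
  unfold F3
  rw [(sym3_true h (lt2 hE a b c) (hG.b a b) (hG.b a c) (hG.b b c)
    (lt2 hE a x y) (hG.b a x) (hG.b a y) (hG.b x y)).2]

theorem F3_r3 (hE : Sy E) (hG : Gr E L) {t3 : ℕ} (h : sym3 t3 = true) (a b c x y : V) :
    F3 E L t3 a b c y x = F3 E L t3 a b c x y := by
  rw [← F3_r2 hE hG h a b c y x, F3_r1 hE hG h, F3_r2 hE hG h]

theorem Bd_q1 (hG : Gr E L) {M : ℕ} (h : symM M = true) (a b c x y : V) : Bd L M b a c x y = Bd L M a b c x y := by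
  unfold Bd
  rw [hG.s a b, (symM_true h (hG.b a b) (hG.b a c) (hG.b b c) (hG.b a x) (hG.b b x) (hG.b c x)).1]

theorem Bd_q2 (hG : Gr E L) {M : ℕ} (h : symM M = true) (a b c x y : V) : Bd L M a c b x y = Bd L M a b c x y := by
  unfold Bd
  rw [hG.s b c, (symM_true h (hG.b a b) (hG.b a c) (hG.b b c) (hG.b a x) (hG.b b x) (hG.b c x)).2.1]

theorem Bd_q3 (hG : Gr E L) {M : ℕ} (h : symM M = true) (a b c x y : V) : Bd L M a b x c y = Bd L M a b c x y := by
  unfold Bd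
  rw [hG.s c x, (symM_true h (hG.b a b) (hG.b a c) (hG.b b c) (hG.b a x) (hG.b b x) (hG.b c x)).2.2]

/-- the sum of the entries of five vertices -/
def Gs (E : V → V → V → ℕ) (L : V → V → ℕ) (t1 : ℕ) (t2 : ℕ → ℕ → ℕ → ℕ → ℕ) (t3 : ℕ) (a b c x y : V) : ℝ :=
  (g10 (F1 E L t1) a b c x y + g10 (F2 E L t2) a b c x y) + g15 (F3 E L t3) a b c x y

theorem Gs_s0 (hE : Sy E) (hG : Gr E L) {t1 : ℕ} {t2 : ℕ → ℕ → ℕ → ℕ → ℕ} {t3 : ℕ} (h1 : sym1 t1 = true)
    (h2 : sym2 t2 = true) (h3 : sym3 t3 = true) (hs : ∀ a b c x y, F2 E L t2 a b c y x = F2 E L t2 a b c x y) (a b c x y : V) :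
    Gs E L t1 t2 t3 b a c x y = Gs E L t1 t2 t3 a b c x y := by
  unfold Gs
  rw [g10_s0 (F1_p1 hE hG h1) (F1_p2 hE hG h1) (fun _ _ _ _ _ => rfl) a b c x y,
    g10_s0 (F2_p1 hE hG h2) (F2_p2 hE hG h2) hs a b c x y,
    g15_s0 (F3_r1 hE hG h3) (F3_r2 hE hG h3) (F3_r3 hE hG h3) a b c x y]

theorem Gs_s1 (hE : Sy E) (hG : Gr E L) {t1 : ℕ} {t2 : ℕ → ℕ → ℕ → ℕ → ℕ} {t3 : ℕ} (h1 : sym1 t1 = true)
    (h2 : sym2 t2 = true) (h3 : sym3 t3 = true) (hs : ∀ a b c x y, F2 E L t2 a b c y x = F2 E L t2 a b c x y) (a b c x y : V) :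
    Gs E L t1 t2 t3 a c b x y = Gs E L t1 t2 t3 a b c x y := by
  unfold Gs
  rw [g10_s1 (F1_p1 hE hG h1) (F1_p2 hE hG h1) (fun _ _ _ _ _ => rfl) a b c x y,
    g10_s1 (F2_p1 hE hG h2) (F2_p2 hE hG h2) hs a b c x y,
    g15_s1 (F3_r1 hE hG h3) (F3_r2 hE hG h3) (F3_r3 hE hG h3) a b c x y]

theorem Gs_s2 (hE : Sy E) (hG : Gr E L) {t1 : ℕ} {t2 : ℕ → ℕ → ℕ → ℕ → ℕ} {t3 : ℕ} (h1 : sym1 t1 = true)
    (h2 : sym2 t2 = true) (h3 : sym3 t3 = true) (hs : ∀ a b c x y, F2 E L t2 a b c y x = F2 E L t2 a b c x y) (a b c x y : V) :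
    Gs E L t1 t2 t3 a b x c y = Gs E L t1 t2 t3 a b c x y := by
  unfold Gs
  rw [g10_s2 (F1_p1 hE hG h1) (F1_p2 hE hG h1) (fun _ _ _ _ _ => rfl) a b c x y,
    g10_s2 (F2_p1 hE hG h2) (F2_p2 hE hG h2) hs a b c x y,
    g15_s2 (F3_r1 hE hG h3) (F3_r2 hE hG h3) (F3_r3 hE hG h3) a b c x y]

theorem Gs_s3 (hE : Sy E) (hG : Gr E L) {t1 : ℕ} {t2 : ℕ → ℕ → ℕ → ℕ → ℕ} {t3 : ℕ} (h1 : sym1 t1 = true)
    (h2 : sym2 t2 = true) (h3 : sym3 t3 = true) (hs : ∀ a b c x y, F2 E L t2 a b c y x = F2 E L t2 a b c x y) (a b c x y : V) :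
    Gs E L t1 t2 t3 a b c y x = Gs E L t1 t2 t3 a b c x y := by
  unfold Gs
  rw [g10_s3 (F1_p1 hE hG h1) (F1_p2 hE hG h1) (fun _ _ _ _ _ => rfl) a b c x y,
    g10_s3 (F2_p1 hE hG h2) (F2_p2 hE hG h2) hs a b c x y,
    g15_s3 (F3_r1 hE hG h3) (F3_r2 hE hG h3) (F3_r3 hE hG h3) a b c x y]

theorem ph_L0 (hE : Sy E) (hG : Gr E L) (a b c x y : V) (h : lw (L a c) (L a x) (L a y) (L b c) (L b x) (L b y) = true) :
    ph E L b a c x y < ph E L a b c x y := by
  have hLb := hG.b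
  unfold ph
  rw [hG.s a b, hE.h213 a b c, hE.h213 a b x, hE.h213 a b y]
  exact phi_L0 (hLb a b) (hLb a c) (hLb b c) (hLb a x) (hLb b x) (hLb c x) (hLb a y) (hLb b y) (hLb c y) (hLb x y) (lt2 hE a b c) (lt2 hE a b x) (lt2 hE a c x) (lt2 hE b c x) (lt2 hE a b y) (lt2 hE a c y) (lt2 hE b c y) (lt2 hE a x y) (lt2 hE b x y) (lt2 hE c x y) h

theorem ph_E0 (hE : Sy E) (hG : Gr E L) (a b c x y : V) (h : (fx (L a c) (L a x) (L a y) (L b c) (L b x) (L b y) && lw (E a c x) (E a c y) (E a x y) (E b c x) (E b c y) (E b x y)) = true) :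
    ph E L b a c x y < ph E L a b c x y := by
  have hLb := hG.b
  unfold ph
  rw [hG.s a b, hE.h213 a b c, hE.h213 a b x, hE.h213 a b y]
  exact phi_E0 (hLb a b) (hLb a c) (hLb b c) (hLb a x) (hLb b x) (hLb c x) (hLb a y) (hLb b y) (hLb c y) (hLb x y) (lt2 hE a b c) (lt2 hE a b x) (lt2 hE a c x) (lt2 hE b c x) (lt2 hE a b y) (lt2 hE a c y) (lt2 hE b c y) (lt2 hE a x y) (lt2 hE b x y) (lt2 hE c x y) h

theorem ph_L1 (hE : Sy E) (hG : Gr E L) (a b c x y : V) (h : lw (L a b) (L b x) (L b y) (L a c) (L c x) (L c y) = true) :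
    ph E L a c b x y < ph E L a b c x y := by
  have hLb := hG.b
  unfold ph
  rw [hG.s b c, hE.h132 a b c, hE.h213 b c x, hE.h213 b c y]
  exact phi_L1 (hLb a b) (hLb a c) (hLb b c) (hLb a x) (hLb b x) (hLb c x) (hLb a y) (hLb b y) (hLb c y) (hLb x y) (lt2 hE a b c) (lt2 hE a b x) (lt2 hE a c x) (lt2 hE b c x) (lt2 hE a b y) (lt2 hE a c y) (lt2 hE b c y) (lt2 hE a x y) (lt2 hE b x y) (lt2 hE c x y) h

theorem ph_E1 (hE : Sy E) (hG : Gr E L) (a b c x y : V) (h : (fx (L a b) (L b x) (L b y) (L a c) (L c x) (L c y) && lw (E a b x) (E a b y) (E b x y) (E a c x) (E a c y) (E c x y)) = true) :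
    ph E L a c b x y < ph E L a b c x y := by
  have hLb := hG.b
  unfold ph
  rw [hG.s b c, hE.h132 a b c, hE.h213 b c x, hE.h213 b c y]
  exact phi_E1 (hLb a b) (hLb a c) (hLb b c) (hLb a x) (hLb b x) (hLb c x) (hLb a y) (hLb b y) (hLb c y) (hLb x y) (lt2 hE a b c) (lt2 hE a b x) (lt2 hE a c x) (lt2 hE b c x) (lt2 hE a b y) (lt2 hE a c y) (lt2 hE b c y) (lt2 hE a x y) (lt2 hE b x y) (lt2 hE c x y) h

theorem ph_L2 (hE : Sy E) (hG : Gr E L) (a b c x y : V) (h : lw (L a c) (L b c) (L c y) (L a x) (L b x) (L x y) = true) :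
    ph E L a b x c y < ph E L a b c x y := by
  have hLb := hG.b
  unfold ph
  rw [hG.s c x, hE.h132 a c x, hE.h132 b c x, hE.h213 c x y]
  exact phi_L2 (hLb a b) (hLb a c) (hLb b c) (hLb a x) (hLb b x) (hLb c x) (hLb a y) (hLb b y) (hLb c y) (hLb x y) (lt2 hE a b c) (lt2 hE a b x) (lt2 hE a c x) (lt2 hE b c x) (lt2 hE a b y) (lt2 hE a c y) (lt2 hE b c y) (lt2 hE a x y) (lt2 hE b x y) (lt2 hE c x y) h

theorem ph_E2 (hE : Sy E) (hG : Gr E L) (a b c x y : V) (h : (fx (L a c) (L b c) (L c y) (L a x) (L b x) (L x y) && lw (E a b c) (E a c y) (E b c y) (E a b x) (E a x y) (E b x y)) = true) :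
    ph E L a b x c y < ph E L a b c x y := by
  have hLb := hG.b
  unfold ph
  rw [hG.s c x, hE.h132 a c x, hE.h132 b c x, hE.h213 c x y]
  exact phi_E2 (hLb a b) (hLb a c) (hLb b c) (hLb a x) (hLb b x) (hLb c x) (hLb a y) (hLb b y) (hLb c y) (hLb x y) (lt2 hE a b c) (lt2 hE a b x) (lt2 hE a c x) (lt2 hE b c x) (lt2 hE a b y) (lt2 hE a c y) (lt2 hE b c y) (lt2 hE a x y) (lt2 hE b x y) (lt2 hE c x y) h

theorem ph_L3 (hE : Sy E) (hG : Gr E L) (a b c x y : V) (h : lw (L a x) (L b x) (L c x) (L a y) (L b y) (L c y) = true) :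
    ph E L a b c y x < ph E L a b c x y := by
  have hLb := hG.b
  unfold ph
  rw [hG.s x y, hE.h132 a x y, hE.h132 b x y, hE.h132 c x y]
  exact phi_L3 (hLb a b) (hLb a c) (hLb b c) (hLb a x) (hLb b x) (hLb c x) (hLb a y) (hLb b y) (hLb c y) (hLb x y) (lt2 hE a b c) (lt2 hE a b x) (lt2 hE a c x) (lt2 hE b c x) (lt2 hE a b y) (lt2 hE a c y) (lt2 hE b c y) (lt2 hE a x y) (lt2 hE b x y) (lt2 hE c x y) h

theorem ph_E3 (hE : Sy E) (hG : Gr E L) (a b c x y : V) (h : (fx (L a x) (L b x) (L c x) (L a y) (L b y) (L c y) && lw (E a b x) (E a c x) (E b c x) (E a b y) (E a c y) (E b c y)) = true) :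
    ph E L a b c y x < ph E L a b c x y := by
  have hLb := hG.b
  unfold ph
  rw [hG.s x y, hE.h132 a x y, hE.h132 b x y, hE.h132 c x y]
  exact phi_E3 (hLb a b) (hLb a c) (hLb b c) (hLb a x) (hLb b x) (hLb c x) (hLb a y) (hLb b y) (hLb c y) (hLb x y) (lt2 hE a b c) (lt2 hE a b x) (lt2 hE a c x) (lt2 hE b c x) (lt2 hE a b y) (lt2 hE a c y) (lt2 hE b c y) (lt2 hE a x y) (lt2 hE b x y) (lt2 hE c x y) h

theorem tot_eq (hE : Sy E) (hG : Gr E L) (t1 : ℕ) (t2 : ℕ → ℕ → ℕ → ℕ → ℕ) (t3 : ℕ) (a b c x y : V) :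
    ((tot t1 t2 t3 (L a b) (L a c) (L b c) (L a x) (L b x) (L c x) (L a y) (L b y) (L c y) (L x y) (E a b c) (E a b x) (E a c x) (E b c x) (E a b y) (E a c y) (E b c y) (E a x y) (E b x y) (E c x y) : ℕ) : ℝ) = Gs E L t1 t2 t3 a b c x y := by
  unfold Gs g10 g15 F1 F2 F3 tot
  simp only [hG.s a c, hG.s a x, hG.s a y, hE.h231 a c x, hE.h231 a c y, hE.h231 a x y, hG.s b c, hG.s b x, hG.s b y, hE.h231 b c x, hE.h231 b c y, hE.h231 b x y, hG.s a b, hE.h231 a b x, hE.h231 a b y, hG.s c x, hG.s c y, hE.h132 b c x, hE.h132 b c y, hE.h231 c x y, hE.h231 a b c, hG.s x y, hE.h132 b x y, hE.h132 c x y, hE.h132 a b x, hE.h132 a b y, hE.h132 a c x, hE.h132 a c y, hE.h132 a b c, hE.h132 a x y, hE.h213 a b c, hE.h213 a b x, hE.h213 a b y, hE.h312 a b c, hE.h213 a c x, hE.h213 b c y, hE.h213 a c y, hE.h213 b c x, hE.h312 a b x, hE.h213 c x y, hE.h312 a c x, hE.h213 b x y, hE.h213 a x y, hE.h312 b c x, hE.h312 a b y, hE.h312 c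 x y, hE.h312 a c y, hE.h312 b x y, hE.h312 a x y, hE.h312 b c y]
  simp only [Nat.add_eq, Nat.cast_add]
  ac_rfl

theorem bd_le (hG : Gr E L) {M : ℕ} (a b c x y : V) (h : bd M (L a b) (L a c) (L b c) (L a x) (L b x) (L c x) (L a y) (L b y) (L c y) (L x y) = true) : 1 ≤ g5 (Bd L M) a b c x y := by
  have n : ∀ p q r s v : V, 0 ≤ Bd L M p q r s v := by
    intro p q r s v
    unfold Bd
    split_ifs <;> norm_num
  unfold bd at h
  rw [Bool.or_eq_true, Bool.or_eq_true, Bool.or_eq_true, Bool.or_eq_true] at h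
  unfold g5
  rcases h with h | h | h | h | h
  · have : Bd L M a b c x y = 1 := if_pos h
    linarith [n b c x y a, n a c x y b, n a b x y c, n a b c y x]
  · have : Bd L M a b c y x = 1 := if_pos h
    linarith [n b c x y a, n a c x y b, n a b x y c, n a b c x y]
  · have : Bd L M a b x y c = 1 := if_pos h
    linarith [n b c x y a, n a c x y b, n a b c y x, n a b c x y]
  · have : Bd L M a c x y b = 1 := if_pos h
    linarith [n b c x y a, n a b x y c, n a b c y x, n a b c x y]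
  · have : Bd L M b c x y a = 1 := if_pos h
    linarith [n a c x y b, n a b x y c, n a b c y x, n a b c x y]

theorem point (hE : Sy E) (hK : NoK4 E) (hG : Gr E L) {t1 : ℕ} {t2 : ℕ → ℕ → ℕ → ℕ → ℕ} {t3 K M : ℕ} (h1 : sym1 t1 = true)
    (h2 : sym2 t2 = true) (h3 : sym3 t3 = true) (hM : symM M = true)
    (hs : ∀ a b c x y, F2 E L t2 a b c y x = F2 E L t2 a b c x y) (hA : allS t1 t2 t3 K M = true) (n : ℕ) :
    ∀ a b c x y : V, ph E L a b c x y = n → (K : ℝ) ≤ Gs E L t1 t2 t3 a b c x y ∨ 1 ≤ g5 (Bd L M) a b c x y := by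
  induction n using Nat.strong_induction_on with
  | _ n ih =>
  intro a b c x y hn
  have q1 := Bd_q1 hG hM
  have q2 := Bd_q2 hG hM
  have q3 := Bd_q3 hG hM
  by_cases cL0 : lw (L a c) (L a x) (L a y) (L b c) (L b x) (L b y) = true
  · have := ih _ (hn ▸ ph_L0 hE hG a b c x y cL0) b a c x y rfl
    rw [Gs_s0 hE hG h1 h2 h3 hs a b c x y, g5_s0 q1 q2 q3 a b c x y] at this
    exact this
  by_cases cE0 : (fx (L a c) (L a x) (L a y) (L b c) (L b x) (L b y) && lw (E a c x) (E a c y) (E a x y) (E b c x) (E b c y) (E b x y)) = true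
  · have := ih _ (hn ▸ ph_E0 hE hG a b c x y cE0) b a c x y rfl
    rw [Gs_s0 hE hG h1 h2 h3 hs a b c x y, g5_s0 q1 q2 q3 a b c x y] at this
    exact this
  by_cases cL1 : lw (L a b) (L b x) (L b y) (L a c) (L c x) (L c y) = true
  · have := ih _ (hn ▸ ph_L1 hE hG a b c x y cL1) a c b x y rfl
    rw [Gs_s1 hE hG h1 h2 h3 hs a b c x y, g5_s1 q1 q2 q3 a b c x y] at this
    exact this
  by_cases cE1 : (fx (L a b) (L b x) (L b y) (L a c) (L c x) (L c y) && lw (E a b x) (E a b y) (E b x y) (E a c x) (E a c y) (E c x y)) = true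
  · have := ih _ (hn ▸ ph_E1 hE hG a b c x y cE1) a c b x y rfl
    rw [Gs_s1 hE hG h1 h2 h3 hs a b c x y, g5_s1 q1 q2 q3 a b c x y] at this
    exact this
  by_cases cL2 : lw (L a c) (L b c) (L c y) (L a x) (L b x) (L x y) = true
  · have := ih _ (hn ▸ ph_L2 hE hG a b c x y cL2) a b x c y rfl
    rw [Gs_s2 hE hG h1 h2 h3 hs a b c x y, g5_s2 q1 q2 q3 a b c x y] at this
    exact this
  by_cases cE2 : (fx (L a c) (L b c) (L c y) (L a x) (L b x) (L x y) && lw (E a b c) (E a c y) (E b c y) (E a b x) (E a x y) (E b x y)) = true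
  · have := ih _ (hn ▸ ph_E2 hE hG a b c x y cE2) a b x c y rfl
    rw [Gs_s2 hE hG h1 h2 h3 hs a b c x y, g5_s2 q1 q2 q3 a b c x y] at this
    exact this
  by_cases cL3 : lw (L a x) (L b x) (L c x) (L a y) (L b y) (L c y) = true
  · have := ih _ (hn ▸ ph_L3 hE hG a b c x y cL3) a b c y x rfl
    rw [Gs_s3 hE hG h1 h2 h3 hs a b c x y, g5_s3 q1 q2 q3 a b c x y] at this
    exact this
  by_cases cE3 : (fx (L a x) (L b x) (L c x) (L a y) (L b y) (L c y) && lw (E a b x) (E a c x) (E b c x) (E a b y) (E a c y) (E b c y)) = true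
  · have := ih _ (hn ▸ ph_E3 hE hG a b c x y cE3) a b c y x rfl
    rw [Gs_s3 hE hG h1 h2 h3 hs a b c x y, g5_s3 q1 q2 q3 a b c x y] at this
    exact this
  by_cases cb : bd M (L a b) (L a c) (L b c) (L a x) (L b x) (L c x) (L a y) (L b y) (L c y) (L x y) = true
  · exact Or.inr (bd_le hG a b c x y cb)
  left
  rw [Bool.not_eq_true] at cL0 cE0 cL1 cE1 cL2 cE2 cL3 cE3 cb
  have skl : skL (L a b) (L a c) (L b c) (L a x) (L b x) (L c x) (L a y) (L b y) (L c y) (L x y) = false := by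
    unfold skL
    rw [cL0, cL1, cL2, cL3]
    rfl
  have ske : skE (L a b) (L a c) (L b c) (L a x) (L b x) (L c x) (L a y) (L b y) (L c y) (L x y) (E a b c) (E a b x) (E a c x) (E b c x) (E a b y) (E a c y) (E b c y) (E a x y) (E b x y) (E c x y) = false := by
    unfold skE
    rw [cE0, cE1, cE2, cE3]
    rfl
  have hLb := hG.b
  have hc := allS_true hA (hLb a b) (hLb a c) (hLb b c) (hLb a x) (hLb b x) (hLb c x) (hLb a y) (hLb b y) (hLb c y) (hLb x y)
  have h := chk_true hc (lt2 hE a b c) (lt2 hE a b x) (lt2 hE a c x) (lt2 hE b c x) (lt2 hE a b y) (lt2 hE a c y) (lt2 hE b c y) (lt2 hE a x y) (lt2 hE b x y) (lt2 hE c x y) cb skl ske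
    (kT hG a b c) (kT hG a b x) (kT hG a c x) (kT hG b c x) (kT hG a b y) (kT hG a c y) (kT hG b c y) (kT hG a x y) (kT hG b x y) (kT hG c x y)
    (kE hK a b c x) (kE hK a b c y) (kE hK a b x y) (kE hK a c x y) (kE hK b c x y)
  rw [← tot_eq hE hG]
  exact_mod_cast h

end

end

end Pool.Agent.Q113.Lnk
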