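import Pool.Agent.Q113.Lnk.Sym
import Pool.Agent.Q113.Lnk.Gram

/-! The inequality for a 3-graph with a graph on the same vertices. -/

set_option autoImplicit false
set_option linter.unusedVariables false
set_option linter.unusedSectionVars false
set_option maxRecDepth 100000
open Finset
open Pool.Agent.H122R2.N6 (Sy NoK4 Bt k4b)
open Pool.Agent.Q113.Cov (T3)
open Pool.Agent.Q113.Hyb (g10 g15 g5 S5 S5_mono S5_add S5_smul S5_const S5_abc abs_hyb sym5)

namespace Pool.Agent.Q113.Lnk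

noncomputable section

section
variable {V : Type} [Fintype V] {E : V → V → V → ℕ} {L : V → V → ℕ}

/-- three vertices can be ordered such that the numbers on the pairs decrease -/
theorem reduce (hs : ∀ x y, L y x = L x y) {P : V → V → V → Prop} (s1 : ∀ a b c, P b a c → P a b c)
    (s2 : ∀ a b c, P a c b → P a b c) (h : ∀ a b c, L b c ≤ L a c → L a c ≤ L a b → P a b c) (a b c : V) : P a b c := by
  have A : ∀ a b c, L a c ≤ L a b → P a b c := by
    intro a b c h1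
    by_cases h2 : L b c ≤ L a c
    · exact h a b c h2 h1
    · apply s1
      by_cases h3 : L b c ≤ L a b
      · apply h b a c
        · omega
        · rw [hs a b]
          exact h3
      · apply s2
        apply h b c a
        · rw [hs a c, hs a b]
          exact h1
        · rw [hs a b]
          omega
  by_cases h1 : L a c ≤ L a b
  · exact A a b c h1
  · exact s2 a b c (A a c b (by omega))

theorem ix6_lt {a b c d e f : ℕ} (ha : a < 2) (hb : b < 2) (hc : c < 2) (hd : d < 2) (he : e < 2) (hf : f < 2) :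
    ix6 a b c d e f < 64 := by
  show a + 2 * (b + 2 * (c + 2 * (d + 2 * (e + 2 * f)))) < 64
  omega

theorem ix4_lt {a b c d : ℕ} (ha : a < 2) (hb : b < 2) (hc : c < 2) (hd : d < 2) : ix4 a b c d < 64 := by
  show a + 2 * (b + 2 * (c + 2 * d)) < 64
  omega

/-- the tables two are sums of squares for the ordered triples -/
def Gall (t2 : ℕ → ℕ → ℕ → ℕ → ℕ) (o : ℕ) : Prop :=
  ∀ e p q r : ℕ, e < 2 → p < 2 → r ≤ q → q ≤ p → e + p + q + r ≠ 4 → Gm (t2 e p q r) o

theorem F2_p3 (hE : Sy E) (hG : Gr E L) {t2 : ℕ → ℕ → ℕ → ℕ → ℕ} (h : sym2 t2 = true) {o2 : ℕ} (hg : Gall t2 o2)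
    (a b c x y : V) : F2 E L t2 a b c y x = F2 E L t2 a b c x y := by
  refine reduce hG.s (P := fun a b c => F2 E L t2 a b c y x = F2 E L t2 a b c x y) ?_ ?_ ?_ a b c
  · intro a b c h1
    have h2 : F2 E L t2 b a c y x = F2 E L t2 b a c x y := h1
    rw [F2_p1 hE hG h a b c y x, F2_p1 hE hG h a b c x y] at h2
    exact h2
  · intro a b c h1
    have h2 : F2 E L t2 a c b y x = F2 E L t2 a c b x y := h1
    rw [F2_p2 hE hG h a b c y x, F2_p2 hE hG h a b c x y] at h2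
    exact h2
  · intro a b c h1 h2
    unfold F2
    rw [Gm_symm (hg _ _ _ _ (lt2 hE a b c) (hG.b a b) h1 h2 (hG.t a b c))
      (ix6_lt (hG.b a y) (hG.b b y) (hG.b c y) (lt2 hE a b y) (lt2 hE a c y) (lt2 hE b c y))
      (ix6_lt (hG.b a x) (hG.b b x) (hG.b c x) (lt2 hE a b x) (lt2 hE a c x) (lt2 hE b c x))]

theorem F2_le (hE : Sy E) (hG : Gr E L) {t2 : ℕ → ℕ → ℕ → ℕ → ℕ} (h : sym2 t2 = true) {o2 : ℕ} (hg : Gall t2 o2)
    {w : V → ℝ} (hw : w ∈ stdSimplex ℝ V) (a b c : V) : ∑ x, ∑ y, w x * w y * F2 E L t2 a b c x y ≤ o2 := by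
  refine reduce hG.s (P := fun a b c => ∑ x, ∑ y, w x * w y * F2 E L t2 a b c x y ≤ o2) ?_ ?_ ?_ a b c
  · intro a b c h1
    simp only [F2_p1 hE hG h a b c] at h1
    exact h1
  · intro a b c h1
    simp only [F2_p2 hE hG h a b c] at h1
    exact h1
  · intro a b c h1 h2
    exact Gm_psd (hg _ _ _ _ (lt2 hE a b c) (hG.b a b) h1 h2 (hG.t a b c)) univ w hw.2
      (fun x => ix6 (L a x) (L b x) (L c x) (E a b x) (E a c x) (E b c x))
      (fun x => ix6_lt (hG.b a x) (hG.b b x) (hG.b c x) (lt2 hE a b x) (lt2 hE a c x) (lt2 hE b c x))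

theorem F3_le (hE : Sy E) (hG : Gr E L) {t3 o3 : ℕ} (hg : Gm t3 o3)
    {w : V → ℝ} (hw : w ∈ stdSimplex ℝ V) (a : V) :
    ∑ b, ∑ c, ∑ x, ∑ y, w b * w c * w x * w y * F3 E L t3 a b c x y ≤ o3 := by
  have h1 := Gm_psd hg (univ : Finset (V × V)) (fun p => w p.1 * w p.2) (by
    rw [Fintype.sum_prod_type, ← sum_mul_sum, hw.2, one_mul])
    (fun p => ix4 (E a p.1 p.2) (L a p.1) (L a p.2) (L p.1 p.2))
    (fun p => ix4_lt (lt2 hE a p.1 p.2) (hG.b a p.1) (hG.b a p.2) (hG.b p.1 p.2))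
  simp only [Fintype.sum_prod_type] at h1
  refine le_trans (le_of_eq ?_) h1
  refine sum_congr rfl fun b _ => sum_congr rfl fun c _ => sum_congr rfl fun x _ => sum_congr rfl fun y _ => ?_
  unfold F3
  ring

theorem S5_F2 (hE : Sy E) (hG : Gr E L) {t2 : ℕ → ℕ → ℕ → ℕ → ℕ} (h : sym2 t2 = true) {o2 : ℕ} (hg : Gall t2 o2)
    {w : V → ℝ} (hw : w ∈ stdSimplex ℝ V) : S5 w (F2 E L t2) ≤ o2 := by
  have e : S5 w (F2 E L t2) = ∑ a, ∑ b, ∑ c, w a * w b * w c * (∑ x, ∑ y, w x * w y * F2 E L t2 a b c x y) := by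
    unfold S5
    refine sum_congr rfl fun a _ => sum_congr rfl fun b _ => sum_congr rfl fun c _ => ?_
    rw [mul_sum]
    refine sum_congr rfl fun x _ => ?_
    rw [mul_sum]
    refine sum_congr rfl fun y _ => ?_
    ring
  have e2 : (o2 : ℝ) = ∑ a, ∑ b, ∑ c, w a * w b * w c * (o2 : ℝ) := by
    rw [← S5_abc hw.2 (fun _ _ _ => (o2 : ℝ)), S5_const hw.2]
  rw [e, e2]
  exact sum_le_sum fun a _ => sum_le_sum fun b _ => sum_le_sum fun c _ =>
    mul_le_mul_of_nonneg_left (F2_le hE hG h hg hw a b c) (mul_nonneg (mul_nonneg (hw.1 a) (hw.1 b)) (hw.1 c))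

theorem S5_F3 (hE : Sy E) (hG : Gr E L) {t3 o3 : ℕ} (hg : Gm t3 o3)
    {w : V → ℝ} (hw : w ∈ stdSimplex ℝ V) : S5 w (F3 E L t3) ≤ o3 := by
  have e : S5 w (F3 E L t3) = ∑ a, w a * (∑ b, ∑ c, ∑ x, ∑ y, w b * w c * w x * w y * F3 E L t3 a b c x y) := by
    unfold S5
    refine sum_congr rfl fun a _ => ?_
    rw [mul_sum]
    refine sum_congr rfl fun b _ => ?_
    rw [mul_sum]
    refine sum_congr rfl fun c _ => ?_
    rw [mul_sum]
    refine sum_congr rfl fun x _ => ?_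
    rw [mul_sum]
    refine sum_congr rfl fun y _ => ?_
    ring
  have e2 : (o3 : ℝ) = ∑ a, w a * (o3 : ℝ) := by
    rw [← sum_mul, hw.2, one_mul]
  rw [e, e2]
  exact sum_le_sum fun a _ => mul_le_mul_of_nonneg_left (F3_le hE hG hg hw a) (hw.1 a)

/-- the check of the table one -/
def all1 (t1 A B o1 : ℕ) : Bool :=
  A2 fun e => A2 fun p => A2 fun q => A2 fun r =>
  Nat.ble (Nat.add (dg t1 (ix4 e p q r)) (Nat.mul 12 (Nat.add (Nat.mul A e) (Nat.mul B (Nat.add (Nat.add p q) r))))) o1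

theorem all1_true {t1 A B o1 : ℕ} (h : all1 t1 A B o1 = true) {e p q r : ℕ} (he : e < 2) (hp : p < 2) (hq : q < 2)
    (hr : r < 2) : dg t1 (ix4 e p q r) + 12 * (A * e + B * (p + q + r)) ≤ o1 :=
  Nat.le_of_ble_eq_true (A2_true (A2_true (A2_true (A2_true h he) hp) hq) hr)

/-- the density of the graph -/
def dL (L : V → V → ℕ) (w : V → ℝ) : ℝ := ∑ x, ∑ y, w x * w y * (L x y : ℝ)

theorem S5_F1 (hE : Sy E) (hG : Gr E L) {t1 A B o1 : ℕ} (h : all1 t1 A B o1 = true)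
    {w : V → ℝ} (hw : w ∈ stdSimplex ℝ V) : S5 w (F1 E L t1) ≤ o1 - 12 * (A * T3 E w w w + 3 * B * dL L w) := by
  have hq : ∀ a b c x y, F1 E L t1 a b c x y ≤ (fun (a b c _ _ : V) => (o1 : ℝ)
      + (-12) * (A * (E a b c : ℝ) + B * ((L a b : ℝ) + L a c + L b c))) a b c x y := by
    intro a b c x y
    have h1 := all1_true h (lt2 hE a b c) (hG.b a b) (hG.b a c) (hG.b b c)
    have h2 : ((dg t1 (ix4 (E a b c) (L a b) (L a c) (L b c)) : ℕ) : ℝ)
        + 12 * (A * (E a b c : ℝ) + B * ((L a b : ℝ) + L a c + L b c)) ≤ o1 := by exact_mod_cast h1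
    show ((dg t1 (ix4 (E a b c) (L a b) (L a c) (L b c)) : ℕ) : ℝ) ≤ _
    linarith
  refine (S5_mono hw.1 hq).trans (le_of_eq ?_)
  rw [S5_abc hw.2 (fun a b c => (o1 : ℝ) + (-12) * (A * (E a b c : ℝ) + B * ((L a b : ℝ) + L a c + L b c)))]
  have l0 : ∑ a, ∑ b, ∑ c, w a * w b * w c * (1 : ℝ) = 1 := by
    rw [← S5_abc hw.2 (fun _ _ _ => 1), S5_const hw.2]
  have l1 : ∑ a, ∑ b, ∑ c, w a * w b * w c * (L a b : ℝ) = dL L w := by
    unfold dL
    refine sum_congr rfl fun a _ => sum_congr rfl fun b _ => ?_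
    have : ∀ c, w a * w b * w c * (L a b : ℝ) = w c * (w a * w b * L a b) := fun c => by ring
    rw [sum_congr rfl fun c _ => this c, ← sum_mul, hw.2, one_mul]
  have l2 : ∑ a, ∑ b, ∑ c, w a * w b * w c * (L a c : ℝ) = dL L w := by
    rw [← l1]
    refine sum_congr rfl fun a _ => ?_
    rw [sum_comm]
    refine sum_congr rfl fun b _ => sum_congr rfl fun c _ => ?_
    ring
  have l3 : ∑ a, ∑ b, ∑ c, w a * w b * w c * (L b c : ℝ) = dL L w := by
    unfold dL
    have : ∀ a, ∑ b, ∑ c, w a * w b * w c * (L b c : ℝ) = w a * ∑ b, ∑ c, w b * w c * (L b c : ℝ) := by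
      intro a
      rw [mul_sum]
      refine sum_congr rfl fun b _ => ?_
      rw [mul_sum]
      refine sum_congr rfl fun c _ => ?_
      ring
    rw [sum_congr rfl fun a _ => this a, ← sum_mul, hw.2, one_mul]
  have l4 : ∑ a, ∑ b, ∑ c, w a * w b * w c * (E a b c : ℝ) = T3 E w w w := by
    unfold T3
    refine sum_congr rfl fun a _ => sum_congr rfl fun b _ => sum_congr rfl fun c _ => ?_
    ring
  have : ∑ a, ∑ b, ∑ c, w a * w b * w c * ((o1 : ℝ) + (-12) * (A * (E a b c : ℝ) + B * ((L a b : ℝ) + L a c + L b c)))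
      = o1 * (∑ a, ∑ b, ∑ c, w a * w b * w c * (1 : ℝ)) + (-12) * A * (∑ a, ∑ b, ∑ c, w a * w b * w c * (E a b c : ℝ))
        + (-12) * B * (∑ a, ∑ b, ∑ c, w a * w b * w c * (L a b : ℝ)) + (-12) * B * (∑ a, ∑ b, ∑ c, w a * w b * w c * (L a c : ℝ))
        + (-12) * B * (∑ a, ∑ b, ∑ c, w a * w b * w c * (L b c : ℝ)) := by
    simp only [mul_sum, ← sum_add_distrib]
    refine sum_congr rfl fun a _ => sum_congr rfl fun b _ => sum_congr rfl fun c _ => ?_
    ring
  rw [this, l0, l1, l2, l3, l4]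
  ring

/-- the inequality for a 3-graph and a graph -/
theorem lnk (hE : Sy E) (hK : NoK4 E) (hG : Gr E L) {w : V → ℝ} (hw : w ∈ stdSimplex ℝ V)
    {t1 : ℕ} {t2 : ℕ → ℕ → ℕ → ℕ → ℕ} {t3 K M A B o1 o2 o3 : ℕ} (h1 : sym1 t1 = true) (h2 : sym2 t2 = true)
    (h3 : sym3 t3 = true) (hM : symM M = true) (h4 : all1 t1 A B o1 = true) (hg2 : Gall t2 o2) (hg3 : Gm t3 o3)
    (hA : allS t1 t2 t3 K M = true) :
    (K : ℝ) + 120 * (A * T3 E w w w + 3 * B * dL L w) ≤ 10 * o1 + 10 * o2 + 15 * o3 + K * (5 * S5 w (Bd L M)) := by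
  have hK0 : (0 : ℝ) ≤ K := Nat.cast_nonneg _
  have n : ∀ p q r s v : V, 0 ≤ Bd L M p q r s v := by
    intro p q r s v
    unfold Bd
    split_ifs <;> norm_num
  have hI := abs_hyb hw.1 hw.2 hK0 (F1 E L t1) (F2 E L t2) (F3 E L t3) (fun _ _ _ _ _ => 0) (g5 (Bd L M))
    (fun a b c x y => Nat.cast_nonneg _) (fun a b c x y => Nat.cast_nonneg _) (fun a b c x y => Nat.cast_nonneg _)
    (fun a b c x y => le_rfl) (fun a b c x y => by
      unfold g5
      linarith [n b c x y a, n a c x y b, n a b x y c, n a b c y x, n a b c x y])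
    (fun a b c x y => by
      rcases point hE hK hG h1 h2 h3 hM (F2_p3 hE hG h2 hg2) hA _ a b c x y rfl with h | h
      · left
        refine h.trans (le_of_eq ?_)
        unfold Gs
        have : g5 (fun _ _ _ _ _ => (0 : ℝ)) a b c x y = 0 := by
          unfold g5
          norm_num
        rw [this]
        ring
      · exact Or.inr h)
  have i1 := S5_F1 hE hG h4 hw
  have i2 := S5_F2 hE hG h2 hg2 hw
  have i3 := S5_F3 hE hG hg3 hw
  have i4 : S5 w (fun _ _ _ _ _ => (0 : ℝ)) = 0 := S5_const hw.2 0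
  have i5 : S5 w (g5 (Bd L M)) = 5 * S5 w (Bd L M) := sym5 w (Bd L M)
  rw [i4, i5] at hI
  linarith

end

end

end Pool.Agent.Q113.Lnk
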